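import Pool.Agent.Lib.MP_2fd4e2_co.Side.Region

/-!
The abstract form of the theorem: two homeomorphisms of the plane with the same area.
-/

set_option autoImplicit false

namespace Pool.Agent.SideTrap

open Complex Set Filter Topology MeasureTheory Pool.Agent.ArcTrap

/-- reflection in the imaginary axis -/
def ml (w : ℂ) : ℂ := ⟨-w.re, w.im⟩

theorem ml_ml (w : ℂ) : ml (ml w) = w := by
  apply Complex.ext <;> simp [ml]

theorem continuous_ml : Continuous ml := by
  unfold ml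
  apply cmk' <;> fun_prop

theorem tt_ml (w : ℂ) : tt (ml w) = -uu w := by simp only [tt, uu, ml]; ring

theorem uu_ml (w : ℂ) : uu (ml w) = -tt w := by simp only [tt, uu, ml]; ring

theorem ml_real (x : ℝ) : ml (x : ℂ) = ((-x : ℝ) : ℂ) := by
  apply Complex.ext <;> simp [ml]

theorem tendsto_neg_gt (a : ℝ) : Tendsto (fun s : ℝ => -s) (𝓝[>] (-a)) (𝓝[<] a) := by
  rw [tendsto_nhdsWithin_iff]
  constructor
  · have h : Continuous fun s : ℝ => -s := continuous_neg
    have := (h.tendsto (-a)).mono_left (nhdsWithin_le_nhds (s := Ioi (-a)))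
    rwa [neg_neg] at this
  · filter_upwards [self_mem_nhdsWithin] with s hs
    have : -a < s := hs
    show -s < a
    linarith

theorem tendsto_neg_lt (a : ℝ) : Tendsto (fun s : ℝ => -s) (𝓝[<] (-a)) (𝓝[>] a) := by
  rw [tendsto_nhdsWithin_iff]
  constructor
  · have h : Continuous fun s : ℝ => -s := continuous_neg
    have := (h.tendsto (-a)).mono_left (nhdsWithin_le_nhds (s := Iio (-a)))
    rwa [neg_neg] at this
  · filter_upwards [self_mem_nhdsWithin] with s hs
    have : s < -a := hs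
    show a < -s
    linarith

theorem confine' {G : ℝ → ℂ} (hG : Continuous G) {a b : ℝ} (hab : a < b) (ha : G a = a)
    (hb : G b = b) (hseg : ∀ s ∈ Ioo a b, ¬ (a ≤ (G s).re ∧ (G s).re ≤ b ∧ (G s).im = 0))
    (hside : ∀ s ∈ Ioo a b, ¬ (tt (G s) = a ∧ a < uu (G s) ∧ uu (G s) ≤ b))
    (hnb : ∀ᶠ s in 𝓝[<] b, 0 < (G s).im) (hna : ∀ᶠ s in 𝓝[>] a, 0 < (G s).im ∧ a < tt (G s)) :
    ∃ F : ℝ → ℂ, Continuous F ∧ F a = a ∧ F b = b ∧
      (∀ s ∈ Ioo a b, 0 ≤ (F s).im ∧ a ≤ tt (F s)) ∧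
      (∀ s ∈ Ioo a b, b < uu (F s) ∨ F s = G s) ∧
      (∀ s ∈ Ioo a b, 0 < (G s).im → a < tt (G s) → F s = G s) := by
  have hneg : ∀ s ∈ Ioo (-b) (-a), -s ∈ Ioo a b := fun s hs =>
    ⟨by linarith [hs.2], by linarith [hs.1]⟩
  have hneg' : ∀ s ∈ Ioo a b, -s ∈ Ioo (-b) (-a) := fun s hs =>
    ⟨by linarith [hs.2], by linarith [hs.1]⟩
  obtain ⟨F, hF, hFa, hFb, hF1, hF2, hF3⟩ := confine (G := fun s => ml (G (-s)))
    (continuous_ml.comp (hG.comp continuous_neg)) (a := -b) (b := -a) (by linarith)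
    (by rw [neg_neg, hb, ml_real]) (by rw [neg_neg, ha, ml_real])
    (by
      rintro s hs ⟨h1, h2, h3⟩
      have h1' : -b ≤ -(G (-s)).re := h1
      have h2' : -(G (-s)).re ≤ -a := h2
      exact hseg (-s) (hneg s hs) ⟨by linarith, by linarith, h3⟩)
    (by
      rintro s hs ⟨h1, h2, h3⟩
      rw [uu_ml] at h1
      rw [tt_ml] at h2 h3
      exact hside (-s) (hneg s hs) ⟨by linarith, by linarith, by linarith⟩)
    (by
      have := (tendsto_neg_gt b).eventually hnb
      filter_upwards [this] with s hs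
      exact hs)
    (by
      have := (tendsto_neg_lt a).eventually hna
      filter_upwards [this] with s hs
      refine ⟨hs.1, ?_⟩
      rw [uu_ml]
      linarith [hs.2])
  refine ⟨fun s => ml (F (-s)), continuous_ml.comp (hF.comp continuous_neg), ?_, ?_, ?_, ?_, ?_⟩
  · show ml (F (-a)) = a
    rw [hFb, ml_real, neg_neg]
  · show ml (F (-b)) = b
    rw [hFa, ml_real, neg_neg]
  · intro s hs
    obtain ⟨h1, h2⟩ := hF1 (-s) (hneg' s hs)
    refine ⟨h1, ?_⟩
    rw [tt_ml]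
    linarith
  · intro s hs
    rcases hF2 (-s) (hneg' s hs) with h | h
    · left
      rw [uu_ml]
      linarith
    · right
      show ml (F (-s)) = G s
      rw [h]
      show ml (ml (G (- -s))) = G s
      rw [ml_ml, neg_neg]
  · intro s hs h1 h2
    have h3 := hF3 (-s) (hneg' s hs) (by
      show 0 < (G (- -s)).im
      rw [neg_neg]; exact h1) (by
      show uu (ml (G (- -s))) < -a
      rw [neg_neg, uu_ml]; linarith)
    show ml (F (-s)) = G s
    rw [h3]
    show ml (ml (G (- -s))) = G s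
    rw [ml_ml, neg_neg]

/-- **The area argument.** -/
theorem vol_contra (V W : ℂ ≃ₜ ℂ) {D : Set ℂ} (hD : IsOpen D) (hne : D.Nonempty)
    (hbd : ∃ R > 0, ∀ z ∈ D, |z.re| ≤ R ∧ |z.im| ≤ R) (hsub : W '' D ⊆ V '' D)
    (hvol : ∀ S : Set ℂ, IsOpen S → volume (V '' S) = volume (W '' S))
    {F : ℂ → ℝ} (hF : Continuous F) (hlt : ∀ w ∈ D, F (W w) < F (V w)) : False := by
  obtain ⟨R, hR, hbd⟩ := hbd
  have hfin : volume (V '' D) < ⊤ := by
    have h1 : D ⊆ Metric.closedBall 0 (2 * R) := by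
      intro z hz
      rw [Metric.mem_closedBall, dist_zero_right]
      have := hbd z hz
      refine (Complex.norm_le_abs_re_add_abs_im z).trans ?_
      linarith
    have h2 : IsCompact (V '' Metric.closedBall 0 (2 * R)) :=
      (isCompact_closedBall _ _).image V.continuous
    exact (measure_mono (image_mono h1)).trans_lt h2.measure_lt_top
  obtain ⟨w1, hw1⟩ := hne
  obtain ⟨c, hc1, hc2⟩ := exists_between (hlt w1 hw1)
  set S : Set ℂ := {w | w ∈ D ∧ F (W w) < c} with hS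
  set S' : Set ℂ := {w | w ∈ D ∧ F (V w) < c} with hS'
  set T : Set ℂ := {w | w ∈ D ∧ F (W w) < c ∧ c < F (V w)} with hT
  have cW : Continuous fun w => F (W w) := hF.comp W.continuous
  have cV : Continuous fun w => F (V w) := hF.comp V.continuous
  have oS : IsOpen S := hD.inter (isOpen_lt cW continuous_const)
  have oT : IsOpen T := hD.inter ((isOpen_lt cW continuous_const).inter
    (isOpen_lt continuous_const cV))
  have sub1 : W '' S ⊆ V '' S' := by
    rintro _ ⟨w, ⟨hwD, hwc⟩, rfl⟩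
    obtain ⟨w', hw', h⟩ := hsub ⟨w, hwD, rfl⟩
    exact ⟨w', ⟨hw', by rw [h]; exact hwc⟩, h⟩
  have sub2 : V '' S' ∪ V '' T ⊆ V '' S := by
    rw [← image_union]
    apply image_mono
    rintro w (⟨h1, h2⟩ | ⟨h1, h2, _⟩)
    · exact ⟨h1, (hlt w h1).trans h2⟩
    · exact ⟨h1, h2⟩
  have dis : Disjoint (V '' S') (V '' T) := by
    rw [Set.disjoint_left]
    rintro _ ⟨w, ⟨_, h1⟩, rfl⟩ ⟨w', ⟨_, _, h2⟩, h3⟩
    have := V.injective h3
    rw [this] at h2
    linarith
  have oVT : IsOpen (V '' T) := V.isOpenMap T oT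
  have pos : 0 < volume (V '' T) := oVT.measure_pos volume ⟨V w1, w1, ⟨hw1, hc1, hc2⟩, rfl⟩
  have h1 : volume (V '' S') + volume (V '' T) ≤ volume (V '' S) := by
    rw [← measure_union dis oVT.measurableSet]
    exact measure_mono sub2
  have h2 : volume (V '' S) ≤ volume (V '' S') := by
    rw [hvol S oS]
    exact measure_mono sub1
  have h3 : volume (V '' S') < ⊤ :=
    (measure_mono (image_mono (fun w hw => hw.1))).trans_lt hfin
  have h4 : volume (V '' S') < volume (V '' S') + volume (V '' T) :=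
    ENNReal.lt_add_right h3.ne pos.ne'
  exact absurd (h4.trans_le (h1.trans h2)) (lt_irrefl _)

/-- a connected set that meets `E` and not its frontier lies in `E` -/
theorem pre_sub {T E : Set ℂ} (hT : IsPreconnected T) (hE : IsOpen E)
    (hf : ∀ z ∈ T, z ∉ frontier E) (hne : (T ∩ E).Nonempty) : T ⊆ E := by
  apply hT.subset_left_of_subset_union hE (isClosed_closure (s := E)).isOpen_compl
  · rw [Set.disjoint_left]
    intro z hz h
    exact h (subset_closure hz)
  · intro z hz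
    by_cases h : z ∈ E
    · exact Or.inl h
    · right
      intro h2
      exact hf z hz ⟨h2, by rw [hE.interior_eq]; exact h⟩
  · exact hne

structure AT (V3 V4 : ℂ ≃ₜ ℂ) (a b : ℝ) (g : ℝ → ℂ) : Prop where
  hab : a < b
  hreal : ∀ x : ℝ, V3 x = V4 x
  hvol : ∀ S : Set ℂ, IsOpen S → volume (V3 '' S) = volume (V4 '' S)
  hre : ∀ w : ℂ, 0 < w.im → (V4 w).re < (V3 w).re
  hup : ∀ w : ℂ, 0 < (V3.symm w).im ↔ 0 < (V4.symm w).im
  hg : Continuous g
  ga : g a = V3 a
  gb : g b = V3 b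
  h1 : ∀ s ∈ Ioo a b, ∀ x ∈ Icc a b, g s ≠ V3 ((x : ℝ) : ℂ)
  h2 : ∀ s ∈ Ioo a b, ¬ (tt (V4.symm (g s)) = a ∧ a < uu (V4.symm (g s)) ∧
    uu (V4.symm (g s)) ≤ b)
  h3 : ∀ s ∈ Ioo a b, ¬ (uu (V3.symm (g s)) = b ∧ a ≤ tt (V3.symm (g s)) ∧
    tt (V3.symm (g s)) < b)
  h4 : ∀ᶠ s in 𝓝[>] a, 0 < (V4.symm (g s)).im ∧ a < tt (V4.symm (g s))
  h5 : ∀ᶠ s in 𝓝[<] b, 0 < (V3.symm (g s)).im ∧ uu (V3.symm (g s)) < b

theorem AT.main {V3 V4 : ℂ ≃ₜ ℂ} {a b : ℝ} {g : ℝ → ℂ} (H : AT V3 V4 a b g) :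
    ∃ s ∈ Ioo a b, ∃ s' ∈ Ioo a b, V3.symm (g s) = V4.symm (g s') ∧
      0 < (V3.symm (g s)).im ∧ a ≤ tt (V3.symm (g s)) ∧ uu (V3.symm (g s)) ≤ b := by
  by_contra hcon
  push Not at hcon
  have hab := H.hab
  set G3 : ℝ → ℂ := fun s => V3.symm (g s) with hG3
  set G4 : ℝ → ℂ := fun s => V4.symm (g s) with hG4
  have c3 : Continuous G3 := V3.symm.continuous.comp H.hg
  have c4 : Continuous G4 := V4.symm.continuous.comp H.hg
  have a3 : G3 a = a := by simp only [hG3]; rw [H.ga, V3.symm_apply_apply]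
  have b3 : G3 b = b := by simp only [hG3]; rw [H.gb, V3.symm_apply_apply]
  have a4 : G4 a = a := by simp only [hG4]; rw [H.ga, H.hreal, V4.symm_apply_apply]
  have b4 : G4 b = b := by simp only [hG4]; rw [H.gb, H.hreal, V4.symm_apply_apply]
  have real_of : ∀ w : ℂ, w.im = 0 → w = ((w.re : ℝ) : ℂ) := by
    intro w hw
    apply Complex.ext
    · simp
    · simpa using hw
  have seg3 : ∀ s ∈ Ioo a b, ¬ (a ≤ (G3 s).re ∧ (G3 s).re ≤ b ∧ (G3 s).im = 0) := by
    rintro s hs ⟨h1, h2, h3⟩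
    apply H.h1 s hs _ ⟨h1, h2⟩
    rw [← real_of _ h3]
    exact (V3.apply_symm_apply (g s)).symm
  have seg4 : ∀ s ∈ Ioo a b, ¬ (a ≤ (G4 s).re ∧ (G4 s).re ≤ b ∧ (G4 s).im = 0) := by
    rintro s hs ⟨h1, h2, h3⟩
    apply H.h1 s hs _ ⟨h1, h2⟩
    rw [H.hreal, ← real_of _ h3]
    exact (V4.apply_symm_apply (g s)).symm
  obtain ⟨F3, hF3c, hF3a, hF3b, hF3i, hF3t, hF3g⟩ := confine c3 hab a3 b3 seg3 H.h3
    (by filter_upwards [H.h4] with s hs; exact (H.hup _).mpr hs.1) H.h5
  obtain ⟨F4, hF4c, hF4a, hF4b, hF4i, hF4t, hF4g⟩ := confine' c4 hab a4 b4 seg4 H.h2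
    (by filter_upwards [H.h5] with s hs; exact (H.hup _).mp hs.1) H.h4
  have P3 : Path' a b F3 :=
    { hab := hab, hF := hF3c, ha := hF3a, hb := hF3b
      hseg := by
        rintro s hs ⟨h1, h2, h3⟩
        rcases hF3t s hs with h | h
        · unfold tt at h; linarith
        · rw [h] at h1 h2 h3
          exact seg3 s hs ⟨h1, h2, h3⟩
      him := fun s hs => (hF3i s hs).1 }
  have P4 : Path' a b F4 :=
    { hab := hab, hF := hF4c, ha := hF4a, hb := hF4b
      hseg := by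
        rintro s hs ⟨h1, h2, h3⟩
        rcases hF4t s hs with h | h
        · unfold uu at h; linarith
        · rw [h] at h1 h2 h3
          exact seg4 s hs ⟨h1, h2, h3⟩
      him := fun s hs => (hF4i s hs).1 }
  have hdis : ∀ s ∈ Ioo a b, ∀ s' ∈ Ioo a b, F3 s ≠ F4 s' := by
    intro s hs s' hs' h
    have k1 := (hF3i s hs).2
    have k2 := (hF4i s' hs').2
    have e3 : F3 s = G3 s := by
      rcases hF3t s hs with h' | h'
      · rw [h] at h'; linarith
      · exact h'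
    have e4 : F4 s' = G4 s' := by
      rcases hF4t s' hs' with h' | h'
      · rw [← h] at h'; linarith
      · exact h'
    have e5 : G3 s = G4 s' := by rw [← e3, ← e4, h]
    have k3 : 0 < (G3 s).im := by
      have h0 : 0 ≤ (G3 s).im := by rw [← e3]; exact (hF3i s hs).1
      rcases h0.eq_or_lt with h' | h'
      · exfalso
        rw [e3] at k1
        rw [← h, e3] at k2
        unfold uu at k1
        unfold tt at k2
        exact seg3 s hs ⟨by linarith, by linarith, h'.symm⟩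
      · exact h'
    have k4 : a ≤ tt (G3 s) := by rw [← e3, h]; exact k2
    have k5 := hcon s hs s' hs' e5 k3 k4
    rw [e3] at k1
    exact absurd k1 (not_le.mpr k5)
  -- the base point
  obtain ⟨ρ3, hρ3, hd3⟩ := P3.half_disc
  obtain ⟨ρ4, hρ4, hd4⟩ := P4.half_disc
  set m : ℝ := (a + b) / 2 with hm
  set ρ := min ρ3 ρ4 with hρdef
  have hρ : 0 < ρ := lt_min hρ3 hρ4
  set w0 : ℂ := ⟨m, ρ / 2⟩ with hw0
  have hw0i : 0 < w0.im := by show 0 < ρ / 2; linarith
  have hw0n : ‖w0 - (m : ℂ)‖ < ρ := by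
    have e : w0 - (m : ℂ) = ((ρ / 2 : ℝ) : ℂ) * I := by
      apply Complex.ext <;> simp [hw0]
    rw [e, norm_mul, Complex.norm_real, Complex.norm_I, mul_one, Real.norm_eq_abs, abs_of_pos
      (by linarith)]
    linarith
  have B3 : Base' a b F3 w0 :=
    { P := P3
      wK := hd3 w0 (hw0n.trans_le (min_le_left _ _)) hw0i
      wi := hw0i
      bd := P3.reg_bounded hd3 (hw0n.trans_le (min_le_left _ _)) hw0i }
  have B4 : Base' a b F4 w0 :=
    { P := P4
      wK := hd4 w0 (hw0n.trans_le (min_le_right _ _)) hw0i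
      wi := hw0i
      bd := P4.reg_bounded hd4 (hw0n.trans_le (min_le_right _ _)) hw0i }
  have hHD3 : {z : ℂ | ‖z - (m : ℂ)‖ < ρ ∧ 0 < z.im} ⊆ Reg a b F3 w0 :=
    sub_Reg (half_disc_convex _ _).isPreconnected (x := w0)
      (fun z hz => hd3 z (hz.1.trans_le (min_le_left _ _)) hz.2) ⟨hw0n, hw0i⟩ (mem_Reg B3.wK)
  have hHD4 : {z : ℂ | ‖z - (m : ℂ)‖ < ρ ∧ 0 < z.im} ⊆ Reg a b F4 w0 :=
    sub_Reg (half_disc_convex _ _).isPreconnected (x := w0)
      (fun z hz => hd4 z (hz.1.trans_le (min_le_right _ _)) hz.2) ⟨hw0n, hw0i⟩ (mem_Reg B4.wK)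
  set J : Set ℂ := g '' Icc a b ∪ {z | ∃ x ∈ Icc a b, z = V3 ((x : ℝ) : ℂ)} with hJ
  have ui3 := B3.uu_lt (fun s hs => (hF3i s hs).2)
  have ui4 := B4.tt_gt (fun s hs => (hF4i s hs).2)
  -- the images avoid the curve
  have av3 : ∀ w ∈ Reg a b F3 w0, V3 w ∉ J := by
    rintro w hw (⟨s, hs, h⟩ | ⟨x, hx, h⟩)
    · have hw1 := B3.im_pos w hw
      have e : G3 s = w := by simp only [hG3]; rw [h, V3.symm_apply_apply]
      rcases hs.1.eq_or_lt with h1 | h1
      · rw [← h1, a3] at e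
        rw [← e] at hw1
        simp at hw1
      · rcases hs.2.eq_or_lt with h2 | h2
        · rw [h2, b3] at e
          rw [← e] at hw1
          simp at hw1
        · have := hF3g s ⟨h1, h2⟩ (by rw [e]; exact hw1) (by rw [e]; exact ui3 w hw)
          apply Reg_sub w0 hw
          left
          exact ⟨s, hs, by rw [this, e]⟩
    · have := V3.injective h
      have hw1 := B3.im_pos w hw
      rw [this] at hw1
      simp at hw1
  have av4 : ∀ w ∈ Reg a b F4 w0, V4 w ∉ J := by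
    rintro w hw (⟨s, hs, h⟩ | ⟨x, hx, h⟩)
    · have hw1 := B4.im_pos w hw
      have e : G4 s = w := by simp only [hG4]; rw [h, V4.symm_apply_apply]
      rcases hs.1.eq_or_lt with h1 | h1
      · rw [← h1, a4] at e
        rw [← e] at hw1
        simp at hw1
      · rcases hs.2.eq_or_lt with h2 | h2
        · rw [h2, b4] at e
          rw [← e] at hw1
          simp at hw1
        · have := hF4g s ⟨h1, h2⟩ (by rw [e]; exact hw1) (by rw [e]; exact ui4 w hw)
          apply Reg_sub w0 hw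
          left
          exact ⟨s, hs, by rw [this, e]⟩
    · rw [H.hreal] at h
      have := V4.injective h
      have hw1 := B4.im_pos w hw
      rw [this] at hw1
      simp at hw1
  -- a common point of the images
  obtain ⟨η, hη, hηρ, hη4⟩ : ∃ η > 0, η < ρ ∧ V4.symm (V3 ⟨m, η⟩) ∈ Metric.ball (m : ℂ) ρ := by
    have h1 : Tendsto (fun η : ℝ => V4.symm (V3 ⟨m, η⟩)) (𝓝 0) (𝓝 (V4.symm (V3 ⟨m, 0⟩))) := by
      have : Continuous (fun η : ℝ => V4.symm (V3 ⟨m, η⟩)) := by
        apply V4.symm.continuous.comp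
        apply V3.continuous.comp
        exact cmk' continuous_const continuous_id
      exact this.tendsto 0
    have e : V4.symm (V3 ⟨m, 0⟩) = (m : ℂ) := by
      have : (⟨m, 0⟩ : ℂ) = (m : ℂ) := rfl
      rw [this, H.hreal, V4.symm_apply_apply]
    rw [e] at h1
    have h2 := h1.eventually (Metric.ball_mem_nhds (m : ℂ) hρ)
    have h3 : ∀ᶠ η in 𝓝[>] (0 : ℝ), V4.symm (V3 ⟨m, η⟩) ∈ Metric.ball (m : ℂ) ρ :=
      nhdsWithin_le_nhds h2
    obtain ⟨η, h4, h5⟩ := (h3.and (Ioo_mem_nhdsGT hρ)).exists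
    exact ⟨η, h5.1, h5.2, h4⟩
  have hcom3 : V3 ⟨m, η⟩ ∈ V3 '' Reg a b F3 w0 := by
    refine ⟨_, hHD3 ⟨?_, hη⟩, rfl⟩
    have e : (⟨m, η⟩ : ℂ) - (m : ℂ) = (η : ℂ) * I := by
      apply Complex.ext <;> simp
    rw [e, norm_mul, Complex.norm_real, Complex.norm_I, mul_one, Real.norm_eq_abs, abs_of_pos hη]
    exact hηρ
  have hcom4 : V3 ⟨m, η⟩ ∈ V4 '' Reg a b F4 w0 := by
    refine ⟨V4.symm (V3 ⟨m, η⟩), hHD4 ⟨?_, ?_⟩, V4.apply_symm_apply _⟩
    · rw [Metric.mem_ball, dist_eq_norm] at hη4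
      exact hη4
    · rw [← H.hup, V3.symm_apply_apply]
      exact hη
  rcases nested B3 B4 hdis with hsub | hsub
  · -- the region of `F3` is smaller
    have fr : frontier (V3 '' Reg a b F3 w0) ⊆ J := by
      rw [← V3.image_frontier]
      rintro _ ⟨w, hw, rfl⟩
      have htw : a ≤ tt w := by
        have h1 : closure (Reg a b F3 w0) ⊆ {w | a ≤ tt w} := by
          apply closure_minimal _ (isClosed_le continuous_const continuous_tt)
          intro z hz
          exact (ui4 z (hsub hz)).le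
        exact h1 hw.1
      rcases frontier_component (isClosed_Ks hF3c) w0 hw with ⟨t, ht, h⟩ | ⟨h1, h2, h3⟩
      · left
        rcases ht.1.eq_or_lt with h1 | h1
        · refine ⟨a, ⟨le_rfl, hab.le⟩, ?_⟩
          rw [← h, ← h1, hF3a, H.ga]
        · rcases ht.2.eq_or_lt with h2 | h2
          · refine ⟨b, ⟨hab.le, le_rfl⟩, ?_⟩
            rw [← h, h2, hF3b, H.gb]
          · rcases hF3t t ⟨h1, h2⟩ with h3 | h3
            · rw [h] at h3; linarith
            · refine ⟨t, ht, ?_⟩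
              rw [← h, h3]
              exact (V3.apply_symm_apply (g t)).symm
      · right
        exact ⟨w.re, ⟨h1, h2⟩, by rw [← real_of w h3]⟩
    have hV : V4 '' Reg a b F4 w0 ⊆ V3 '' Reg a b F3 w0 := by
      apply pre_sub ((pre_Reg w0).image _ V4.continuous.continuousOn)
        (V3.isOpenMap _ (isOpen_Reg P3 w0))
      · rintro _ ⟨w, hw, rfl⟩ h
        exact av4 w hw (fr h)
      · exact ⟨V3 ⟨m, η⟩, hcom4, hcom3⟩
    exact vol_contra V3 V4 (isOpen_Reg P3 w0) ⟨w0, mem_Reg B3.wK⟩ B3.bd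
      ((image_mono hsub).trans hV) H.hvol Complex.continuous_re
      (fun w hw => H.hre w (B3.im_pos w hw))
  · have fr : frontier (V4 '' Reg a b F4 w0) ⊆ J := by
      rw [← V4.image_frontier]
      rintro _ ⟨w, hw, rfl⟩
      have htw : uu w ≤ b := by
        have h1 : closure (Reg a b F4 w0) ⊆ {w | uu w ≤ b} := by
          apply closure_minimal _ (isClosed_le continuous_uu continuous_const)
          intro z hz
          exact (ui3 z (hsub hz)).le
        exact h1 hw.1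
      rcases frontier_component (isClosed_Ks hF4c) w0 hw with ⟨t, ht, h⟩ | ⟨h1, h2, h3⟩
      · left
        rcases ht.1.eq_or_lt with h1 | h1
        · refine ⟨a, ⟨le_rfl, hab.le⟩, ?_⟩
          rw [← h, ← h1, hF4a, H.ga, H.hreal]
        · rcases ht.2.eq_or_lt with h2 | h2
          · refine ⟨b, ⟨hab.le, le_rfl⟩, ?_⟩
            rw [← h, h2, hF4b, H.gb, H.hreal]
          · rcases hF4t t ⟨h1, h2⟩ with h3 | h3
            · rw [h] at h3; linarith
            · refine ⟨t, ht, ?_⟩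
              rw [← h, h3]
              exact (V4.apply_symm_apply (g t)).symm
      · right
        exact ⟨w.re, ⟨h1, h2⟩, by rw [H.hreal, ← real_of w h3]⟩
    have hV : V3 '' Reg a b F3 w0 ⊆ V4 '' Reg a b F4 w0 := by
      apply pre_sub ((pre_Reg w0).image _ V3.continuous.continuousOn)
        (V4.isOpenMap _ (isOpen_Reg P4 w0))
      · rintro _ ⟨w, hw, rfl⟩ h
        exact av3 w hw (fr h)
      · exact ⟨V3 ⟨m, η⟩, hcom3, hcom4⟩
    exact vol_contra V4 V3 (isOpen_Reg P4 w0) ⟨w0, mem_Reg B4.wK⟩ B4.bd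
      ((image_mono hsub).trans hV) (fun S hS => (H.hvol S hS).symm)
      (F := fun z => -z.re) Complex.continuous_re.neg
      (fun w hw => neg_lt_neg (H.hre w (B4.im_pos w hw)))

end Pool.Agent.SideTrap
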