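import Pool.Agent.Lib.MP_2fd4e2_co.Gen.Base

/-!
Confining a path to a wedge.
-/

set_option autoImplicit false

namespace Pool.Agent.SideTrap

open Complex Set Filter Topology Pool.Agent.ArcTrap

/-- first parameter of a point of the parameter plane -/
def tt (w : ℂ) : ℝ := w.re - w.im

/-- second parameter of a point of the parameter plane -/
def uu (w : ℂ) : ℝ := w.re + w.im

theorem continuous_tt : Continuous tt := by unfold tt; fun_prop

theorem continuous_uu : Continuous uu := by unfold uu; fun_prop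

/-- the retraction onto `tt ≤ c`, `tt ≤ uu ≤ b` -/
noncomputable def ret (c b : ℝ) (w : ℂ) : ℂ :=
  ⟨(min (tt w) c + max (min (tt w) c) (min (uu w) b)) / 2,
    (max (min (tt w) c) (min (uu w) b) - min (tt w) c) / 2⟩

theorem tt_ret (c b : ℝ) (w : ℂ) : tt (ret c b w) = min (tt w) c := by
  show (min (tt w) c + max (min (tt w) c) (min (uu w) b)) / 2
    - (max (min (tt w) c) (min (uu w) b) - min (tt w) c) / 2 = _
  ring

theorem uu_ret (c b : ℝ) (w : ℂ) : uu (ret c b w) = max (min (tt w) c) (min (uu w) b) := by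
  show (min (tt w) c + max (min (tt w) c) (min (uu w) b)) / 2
    + (max (min (tt w) c) (min (uu w) b) - min (tt w) c) / 2 = _
  ring

theorem continuous_ret (c b : ℝ) : Continuous (ret c b) := by
  unfold ret
  have h1 := continuous_tt
  have h2 := continuous_uu
  apply cmk' <;> fun_prop

theorem ret_of {c b : ℝ} {w : ℂ} (h1 : tt w ≤ c) (h2 : 0 ≤ w.im) (h3 : uu w ≤ b) :
    ret c b w = w := by
  have h4 : tt w ≤ uu w := by unfold tt uu; linarith
  apply Complex.ext
  · show (min (tt w) c + max (min (tt w) c) (min (uu w) b)) / 2 = w.re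
    rw [min_eq_left h1, min_eq_left h3, max_eq_right h4]
    unfold tt uu; ring
  · show (max (min (tt w) c) (min (uu w) b) - min (tt w) c) / 2 = w.im
    rw [min_eq_left h1, min_eq_left h3, max_eq_right h4]
    unfold tt uu; ring

theorem confine {G : ℝ → ℂ} (hG : Continuous G) {a b : ℝ} (hab : a < b) (ha : G a = a)
    (hb : G b = b) (hseg : ∀ s ∈ Ioo a b, ¬ (a ≤ (G s).re ∧ (G s).re ≤ b ∧ (G s).im = 0))
    (hside : ∀ s ∈ Ioo a b, ¬ (uu (G s) = b ∧ a ≤ tt (G s) ∧ tt (G s) < b))
    (hna : ∀ᶠ s in 𝓝[>] a, 0 < (G s).im) (hnb : ∀ᶠ s in 𝓝[<] b, 0 < (G s).im ∧ uu (G s) < b) :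
    ∃ F : ℝ → ℂ, Continuous F ∧ F a = a ∧ F b = b ∧
      (∀ s ∈ Ioo a b, 0 ≤ (F s).im ∧ uu (F s) ≤ b) ∧
      (∀ s ∈ Ioo a b, tt (F s) < a ∨ F s = G s) ∧
      (∀ s ∈ Ioo a b, 0 < (G s).im → uu (G s) < b → F s = G s) := by
  classical
  -- the two end intervals
  have hua : ∀ᶠ s in 𝓝[>] a, uu (G s) < b := by
    have h1 : Tendsto (fun s => uu (G s)) (𝓝[>] a) (𝓝 (uu (G a))) :=
      ((continuous_uu.comp hG).tendsto a).mono_left nhdsWithin_le_nhds
    have h2 : uu (G a) < b := by
      rw [ha]; unfold uu; simpa using hab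
    exact h1.eventually (eventually_lt_nhds h2)
  obtain ⟨a', ha', hA⟩ := (mem_nhdsGT_iff_exists_Ioo_subset' hab).mp (hna.and hua)
  obtain ⟨b', hb', hB⟩ := (mem_nhdsLT_iff_exists_Ioo_subset' hab).mp hnb
  have ha'0 : a < a' := ha'
  have hb'0 : b' < b := hb'
  set a1 := (a + min a' ((a + b) / 2)) / 2 with ha1
  set b1 := (b + max b' ((a + b) / 2)) / 2 with hb1
  have m1 : min a' ((a + b) / 2) ≤ a' := min_le_left _ _
  have m2 : min a' ((a + b) / 2) ≤ (a + b) / 2 := min_le_right _ _
  have m3 : b' ≤ max b' ((a + b) / 2) := le_max_left _ _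
  have m4 : (a + b) / 2 ≤ max b' ((a + b) / 2) := le_max_right _ _
  have m5 : a < min a' ((a + b) / 2) := lt_min ha'0 (by linarith)
  have m6 : max b' ((a + b) / 2) < b := max_lt hb'0 (by linarith)
  have haa1 : a < a1 := by rw [ha1]; linarith
  have hb1b : b1 < b := by rw [hb1]; linarith
  have hint_a : ∀ s, a < s → s ≤ a1 → 0 < (G s).im ∧ uu (G s) < b := fun s h1 h2 =>
    hA ⟨h1, by rw [ha1] at h2; linarith⟩
  have hint_b : ∀ s, b1 ≤ s → s < b → 0 < (G s).im ∧ uu (G s) < b := fun s h1 h2 =>
    hB ⟨by rw [hb1] at h1; linarith, h2⟩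
  have hImc : Continuous fun s => (G s).im := Complex.continuous_im.comp hG
  have huc : Continuous fun s => uu (G s) := continuous_uu.comp hG
  have htc : Continuous fun s => tt (G s) := continuous_tt.comp hG
  -- the exit times
  set O : Set ℝ := {s | s ∈ Icc a1 b1 ∧ ((G s).im ≤ 0 ∨ b ≤ uu (G s))} with hO
  have hOc : IsClosed O := by
    apply isClosed_Icc.inter
    exact (isClosed_le hImc continuous_const).union (isClosed_le continuous_const huc)
  set X : Set ℝ := {s | s ∈ O ∧ 0 ≤ (G s).im ∧ uu (G s) ≤ b} with hX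
  have hXc : IsClosed X :=
    hOc.inter ((isClosed_le continuous_const hImc).inter (isClosed_le huc continuous_const))
  have hXt : ∀ s ∈ X, tt (G s) < a := by
    rintro s ⟨⟨hs, hor⟩, h1, h2⟩
    have hs' : s ∈ Ioo a b := ⟨by linarith [hs.1], by linarith [hs.2]⟩
    rcases hor with h3 | h3
    · have h4 : (G s).im = 0 := le_antisymm h3 h1
      have h5 := hseg s hs'
      unfold uu at h2
      unfold tt
      by_contra hcon
      push Not at hcon
      exact h5 ⟨by linarith, by linarith, h4⟩
    · have h4 : uu (G s) = b := le_antisymm h2 h3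
      by_contra hcon
      push Not at hcon
      by_cases h5 : tt (G s) < b
      · exact hside s hs' ⟨h4, hcon, h5⟩
      · push Not at h5
        unfold uu at h4
        unfold tt at h5
        exact hseg s hs' ⟨by linarith, by linarith, by linarith⟩
  obtain ⟨c, hca, hXc'⟩ : ∃ c < a, ∀ s ∈ X, tt (G s) ≤ c := by
    rcases X.eq_empty_or_nonempty with h | h
    · exact ⟨a - 1, by linarith, by rw [h]; simp⟩
    · have hXcomp : IsCompact X := isCompact_Icc.of_isClosed_subset hXc (fun s hs => hs.1.1)
      obtain ⟨s0, hs0, hmax⟩ := hXcomp.exists_isMaxOn h htc.continuousOn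
      exact ⟨tt (G s0), hXt s0 hs0, fun s hs => hmax hs⟩
  obtain ⟨r0, hr0⟩ := ContinuousMap.exists_restrict_eq hXc
    (⟨fun s : X => G s, hG.comp continuous_subtype_val⟩ : C(X, ℂ))
  have hr0X : ∀ s ∈ X, r0 s = G s := by
    intro s hs
    have := congrArg (fun φ : C(X, ℂ) => φ ⟨s, hs⟩) hr0
    exact this
  set r : ℝ → ℂ := fun s => ret c b (r0 s) with hr
  have hrc : Continuous r := (continuous_ret c b).comp r0.continuous
  have hrX : ∀ s ∈ X, r s = G s := by
    intro s hs
    simp only [hr]
    rw [hr0X s hs]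
    exact ret_of (hXc' s hs) hs.2.1 hs.2.2
  -- the kept times
  set K : Set ℝ := {s | 0 ≤ (G s).im ∧ uu (G s) ≤ b} ∪ (Iic a1 ∪ Ici b1) with hK
  have hKc : IsClosed K :=
    ((isClosed_le continuous_const hImc).inter (isClosed_le huc continuous_const)).union
      (isClosed_Iic.union isClosed_Ici)
  have hKO : ∀ s, s ∈ K → s ∈ O → s ∈ X := by
    rintro s hsK hsO
    rcases hsK with h | h | h
    · exact ⟨hsO, h⟩
    · have h1 : s = a1 := le_antisymm h hsO.1.1
      have := hint_a s (by rw [h1]; exact haa1) h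
      rcases hsO.2 with h2 | h2 <;> linarith [this.1, this.2]
    · have h1 : s = b1 := le_antisymm hsO.1.2 h
      have := hint_b s h (by rw [h1]; exact hb1b)
      rcases hsO.2 with h2 | h2 <;> linarith [this.1, this.2]
  have hcov : K ∪ O = univ := by
    rw [eq_univ_iff_forall]
    intro s
    by_cases h : s ∈ K
    · exact Or.inl h
    · right
      simp only [hK, mem_union, not_or] at h
      have h1 : a1 ≤ s := by
        have := h.2.1
        simp only [mem_Iic, not_le] at this
        exact this.le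
      have h2 : s ≤ b1 := by
        have := h.2.2
        simp only [mem_Ici, not_le] at this
        exact this.le
      refine ⟨⟨h1, h2⟩, ?_⟩
      by_contra hcon
      push Not at hcon
      exact h.1 ⟨hcon.1.le, hcon.2.le⟩
  set F : ℝ → ℂ := fun s => if s ∈ K then G s else r s with hF
  have hFK : ∀ s ∈ K, F s = G s := fun s hs => if_pos hs
  have hFO : ∀ s ∈ O, F s = r s := by
    intro s hs
    by_cases h : s ∈ K
    · rw [hFK s h, hrX s (hKO s h hs)]
    · exact if_neg h
  have hFc : Continuous F := by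
    rw [← continuousOn_univ, ← hcov]
    apply ContinuousOn.union_of_isClosed _ _ hKc hOc
    · exact hG.continuousOn.congr hFK
    · exact hrc.continuousOn.congr hFO
  have haK : a ∈ K := Or.inr (Or.inl haa1.le)
  have hbK : b ∈ K := Or.inr (Or.inr hb1b.le)
  refine ⟨F, hFc, by rw [hFK a haK, ha], by rw [hFK b hbK, hb], ?_, ?_, ?_⟩
  · intro s hs
    by_cases h : s ∈ K
    · rw [hFK s h]
      rcases h with h | h | h
      · exact h
      · have := hint_a s hs.1 h
        exact ⟨this.1.le, this.2.le⟩
      · have := hint_b s h hs.2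
        exact ⟨this.1.le, this.2.le⟩
    · have hsO : s ∈ O := by
        have : s ∈ K ∪ O := by rw [hcov]; trivial
        rcases this with h' | h'
        · exact absurd h' h
        · exact h'
      rw [hFO s hsO]
      have e1 : tt (r s) = min (tt (r0 s)) c := tt_ret c b (r0 s)
      have e2 : uu (r s) = max (min (tt (r0 s)) c) (min (uu (r0 s)) b) := uu_ret c b (r0 s)
      have h1 : tt (r s) ≤ uu (r s) := by
        rw [e1, e2]; exact le_max_left _ _
      constructor
      · unfold tt uu at h1; linarith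
      · rw [e2]
        apply max_le
        · exact (min_le_right _ _).trans (by linarith)
        · exact min_le_right _ _
  · intro s hs
    by_cases h : s ∈ K
    · right; exact hFK s h
    · have hsO : s ∈ O := by
        have : s ∈ K ∪ O := by rw [hcov]; trivial
        rcases this with h' | h'
        · exact absurd h' h
        · exact h'
      left
      rw [hFO s hsO]
      have e1 : tt (r s) = min (tt (r0 s)) c := tt_ret c b (r0 s)
      rw [e1]
      exact (min_le_right _ _).trans_lt hca
  · intro s _ h1 h2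
    exact hFK s (Or.inl ⟨h1.le, h2.le⟩)

end Pool.Agent.SideTrap
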