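import Pool.Agent.Lib.MP_2fd4e2_co.Side.Maps
import Pool.Agent.Lib.MP_2fd4e2_co.Arc.Final

/-!
The final statements: a Lipschitz graph closed up by an arbitrary path, and a segment closed up by
an arbitrary path in the half strip over it.
-/

set_option autoImplicit false

namespace Pool.Agent.SideTrap

open Complex Set Filter Topology MeasureTheory Pool.Agent.ArcTrap

/-- clamping to an interval -/
def cl (a b x : ℝ) : ℝ := max a (min b x)

theorem cl_mem {a b : ℝ} (hab : a ≤ b) (x : ℝ) : cl a b x ∈ Icc a b :=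
  ⟨le_max_left _ _, max_le hab (min_le_left _ _)⟩

theorem cl_of_mem {a b x : ℝ} (hx : x ∈ Icc a b) : cl a b x = x := by
  unfold cl; rw [min_eq_right hx.2, max_eq_right hx.1]

theorem cl_of_le {a b x : ℝ} (hx : x ≤ a) : cl a b x = a := by
  unfold cl
  exact max_eq_left ((min_le_right _ _).trans hx)

theorem cl_lip (a b x y : ℝ) : |cl a b x - cl a b y| ≤ |x - y| := by
  unfold cl
  refine (abs_max_sub_max_le_max a (min b x) a (min b y)).trans ?_
  refine max_le (by rw [sub_self, abs_zero]; exact abs_nonneg _) ?_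
  refine (abs_min_sub_min_le_max b x b y).trans ?_
  exact max_le (by rw [sub_self, abs_zero]; exact abs_nonneg _) le_rfl

theorem continuous_cl (a b : ℝ) : Continuous (cl a b) := by
  unfold cl; fun_prop

theorem par_gt {a b : ℝ} (hab : a < b) :
    Tendsto (fun s : ℝ => (s - a) / (b - a)) (𝓝[>] a) (𝓝[>] (0 : ℝ)) := by
  rw [tendsto_nhdsWithin_iff]
  constructor
  · have h : Continuous fun s : ℝ => (s - a) / (b - a) := by fun_prop
    have h2 := (h.tendsto a).mono_left (nhdsWithin_le_nhds (s := Ioi a))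
    rwa [sub_self, zero_div] at h2
  · filter_upwards [self_mem_nhdsWithin] with s hs
    have : a < s := hs
    exact div_pos (sub_pos.mpr this) (sub_pos.mpr hab)

theorem par_lt {a b : ℝ} (hab : a < b) :
    Tendsto (fun s : ℝ => (s - a) / (b - a)) (𝓝[<] b) (𝓝[<] (1 : ℝ)) := by
  rw [tendsto_nhdsWithin_iff]
  constructor
  · have h : Continuous fun s : ℝ => (s - a) / (b - a) := by fun_prop
    have h2 := (h.tendsto b).mono_left (nhdsWithin_le_nhds (s := Iio b))
    rwa [div_self (by linarith : b - a ≠ 0)] at h2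
  · filter_upwards [self_mem_nhdsWithin] with s hs
    have : s < b := hs
    show (s - a) / (b - a) < 1
    rw [div_lt_one (by linarith)]
    linarith

theorem inscribed_side (φ l : ℝ) (hφ : 0 < φ) (hφ' : φ < Real.pi) (hl : 0 < l)
    (hl' : 0 < 1 + 2 * l * Real.cos φ) (A : ℝ) (hA : 0 ≤ A)
    (hA' : 2 * A * |l + Real.cos φ| < (1 - A ^ 2) * Real.sin φ)
    (a b : ℝ) (hab : a < b) (f : ℝ → ℝ)
    (hf : ∀ x ∈ Icc a b, ∀ y ∈ Icc a b, |f x - f y| ≤ A * |x - y|)
    (g : ℝ → ℂ) (hg : ContinuousOn g (Icc 0 1)) (h0 : g 0 = zz f a) (h1 : g 1 = zz f b)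
    (hav : ∀ s ∈ Ioo (0 : ℝ) 1, ∀ x ∈ Icc a b, g s ≠ zz f x)
    (hlegP : ∀ s ∈ Ioo (0 : ℝ) 1, ∀ u ∈ Ioc a b,
      g s ≠ zz f a - l * exp (-(φ * I)) * (zz f u - zz f a))
    (hlegQ : ∀ s ∈ Ioo (0 : ℝ) 1, ∀ t ∈ Ico a b,
      g s ≠ zz f b + l * exp (φ * I) * (zz f b - zz f t))
    (hP : ∀ᶠ s in 𝓝[>] (0 : ℝ), ∃ t u : ℝ, a < t ∧ t < u ∧ u ≤ b ∧
      g s = zz f t - l * exp (-(φ * I)) * (zz f u - zz f t))
    (hQ : ∀ᶠ s in 𝓝[<] (1 : ℝ), ∃ t u : ℝ, a ≤ t ∧ t < u ∧ u < b ∧
      g s = zz f u + l * exp (φ * I) * (zz f u - zz f t)) :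
    ∃ t ∈ Icc a b, ∃ u ∈ Icc a b, t < u ∧
      zz f u + l * exp (φ * I) * (zz f u - zz f t) ∈ g '' Ioo 0 1 ∧
      zz f t - l * exp (-(φ * I)) * (zz f u - zz f t) ∈ g '' Ioo 0 1 := by
  have hsin : 0 < Real.sin φ := Real.sin_pos_of_pos_of_lt_pi hφ hφ'
  have hsc := Real.sin_sq_add_cos_sq φ
  set c : ℂ := 1 + l * exp (φ * I) with hc
  set d : ℂ := -(l * exp (-(φ * I))) with hd
  have ec : c = ⟨1 + l * Real.cos φ, l * Real.sin φ⟩ := by
    rw [hc, kap]; apply Complex.ext <;> simp
  have ed : d = ⟨-(l * Real.cos φ), l * Real.sin φ⟩ := by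
    rw [hd, kap']; apply Complex.ext <;> simp
  set F : ℝ → ℝ := fun x => f (cl a b x) with hF
  have hFI : ∀ x ∈ Icc a b, zz F x = zz f x := by
    intro x hx
    unfold zz
    simp only [hF]
    rw [cl_of_mem hx]
  have hFl : ∀ x y, |F x - F y| ≤ A * |x - y| := by
    intro x y
    refine (hf _ (cl_mem hab.le x) _ (cl_mem hab.le y)).trans ?_
    exact mul_le_mul_of_nonneg_left (cl_lip a b x y) hA
  have hFa : ∀ x ≤ a, F x = F a := by
    intro x hx
    simp only [hF]
    rw [cl_of_le hx, cl_of_le le_rfl]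
  have hμ : 2 * A * |l * (l + Real.cos φ)| < l * Real.sin φ * (1 - A ^ 2) := by
    rw [abs_mul, abs_of_pos hl]
    have := mul_lt_mul_of_pos_left hA' hl
    linarith
  have Hc : MD F A a c (l * (l + Real.cos φ)) (l * Real.sin φ) :=
    { hf := hFl
      hA := hA
      hfa := hFa
      hc := by
        rw [ec]
        apply Complex.ext
        · simp only [Complex.mul_re, Complex.conj_re, Complex.conj_im, Complex.sub_re,
            Complex.sub_im, Complex.one_re, Complex.one_im]
          linear_combination -(l ^ 2) * hsc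
        · simp only [Complex.mul_im, Complex.conj_re, Complex.conj_im, Complex.sub_re,
            Complex.sub_im, Complex.one_re, Complex.one_im]
          ring
      hq := mul_pos hl hsin
      him := by rw [ec]
      hμ := hμ }
  have Hd : MD F A a d (l * (l + Real.cos φ)) (l * Real.sin φ) :=
    { hf := hFl
      hA := hA
      hfa := hFa
      hc := by
        rw [ed]
        apply Complex.ext
        · simp only [Complex.mul_re, Complex.conj_re, Complex.conj_im, Complex.sub_re,
            Complex.sub_im, Complex.one_re, Complex.one_im]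
          linear_combination -(l ^ 2) * hsc
        · simp only [Complex.mul_im, Complex.conj_re, Complex.conj_im, Complex.sub_re,
            Complex.sub_im, Complex.one_re, Complex.one_im]
          ring
      hq := mul_pos hl hsin
      him := by rw [ed]
      hμ := hμ }
  obtain ⟨V3, V4, e3, e4, hvol, hre, hup3, hup4⟩ := pair Hc Hd (by
    rw [ec, ed]
    show 0 < 1 + l * Real.cos φ - -(l * Real.cos φ)
    linarith)
  have v3e : ∀ t ∈ Icc a b, ∀ u ∈ Icc a b, ∀ w : ℂ, tt w = t → uu w = u →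
      V3 w = zz f u + l * exp (φ * I) * (zz f u - zz f t) := by
    intro t ht u hu w h2 h3
    rw [e3]
    unfold Vm
    rw [h2, h3, hFI t ht, hFI u hu, hc]
    ring
  have v4e : ∀ t ∈ Icc a b, ∀ u ∈ Icc a b, ∀ w : ℂ, tt w = t → uu w = u →
      V4 w = zz f t - l * exp (-(φ * I)) * (zz f u - zz f t) := by
    intro t ht u hu w h2 h3
    rw [e4]
    unfold Vm
    rw [h2, h3, hFI t ht, hFI u hu, hd]
    ring
  have ttw : ∀ t u : ℝ, tt ⟨(t + u) / 2, (u - t) / 2⟩ = t := by
    intro t u; simp only [tt]; ring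
  have uuw : ∀ t u : ℝ, uu ⟨(t + u) / 2, (u - t) / 2⟩ = u := by
    intro t u; simp only [uu]; ring
  set γ : ℝ → ℂ := fun s => g (cl 0 1 ((s - a) / (b - a))) with hγ
  have hba : 0 < b - a := by linarith
  have hγI : ∀ s ∈ Ioo a b, (s - a) / (b - a) ∈ Ioo (0 : ℝ) 1 ∧ γ s = g ((s - a) / (b - a)) := by
    intro s hs
    have k1 : 0 < (s - a) / (b - a) := div_pos (by linarith [hs.1]) hba
    have k2 : (s - a) / (b - a) < 1 := by rw [div_lt_one hba]; linarith [hs.2]
    refine ⟨⟨k1, k2⟩, ?_⟩
    simp only [hγ]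
    rw [cl_of_mem ⟨k1.le, k2.le⟩]
  have H : AT V3 V4 a b γ :=
    { hab := hab
      hreal := by intro x; rw [e3, e4, Vm_real, Vm_real]
      hvol := hvol
      hre := hre
      hup := by
        intro w
        rw [hup3, hup4]
      hg := by
        apply hg.comp_continuous
        · exact (continuous_cl 0 1).comp (by fun_prop)
        · intro x; exact cl_mem zero_le_one _
      ga := by
        simp only [hγ]
        rw [sub_self, zero_div, cl_of_mem ⟨le_rfl, zero_le_one⟩, h0, e3, Vm_real,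
          hFI a ⟨le_rfl, hab.le⟩]
      gb := by
        simp only [hγ]
        rw [div_self hba.ne', cl_of_mem ⟨zero_le_one, le_rfl⟩, h1, e3, Vm_real,
          hFI b ⟨hab.le, le_rfl⟩]
      h1 := by
        intro s hs x hx
        obtain ⟨k1, k2⟩ := hγI s hs
        rw [k2, e3, Vm_real, hFI x hx]
        exact hav _ k1 x hx
      h2 := by
        rintro s hs ⟨k3, k4, k5⟩
        obtain ⟨k1, k2⟩ := hγI s hs
        apply hlegP _ k1 _ ⟨k4, k5⟩
        rw [← k2]
        have := v4e a ⟨le_rfl, hab.le⟩ _ ⟨k4.le, k5⟩ (V4.symm (γ s)) k3 rfl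
        rw [V4.apply_symm_apply] at this
        exact this
      h3 := by
        rintro s hs ⟨k3, k4, k5⟩
        obtain ⟨k1, k2⟩ := hγI s hs
        apply hlegQ _ k1 _ ⟨k4, k5⟩
        rw [← k2]
        have := v3e _ ⟨k4, k5.le⟩ b ⟨hab.le, le_rfl⟩ (V3.symm (γ s)) rfl k3
        rw [V3.apply_symm_apply] at this
        exact this
      h4 := by
        have k := (par_gt hab).eventually hP
        filter_upwards [k, Ioo_mem_nhdsGT hab] with s hs hs'
        obtain ⟨t, u, h5, h6, h7, h8⟩ := hs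
        obtain ⟨k1, k2⟩ := hγI s hs'
        have h9 := v4e t ⟨h5.le, by linarith⟩ u ⟨by linarith, h7⟩ _ (ttw t u) (uuw t u)
        have h10 : V4.symm (γ s) = ⟨(t + u) / 2, (u - t) / 2⟩ := by
          rw [k2, h8, ← h9, V4.symm_apply_apply]
        rw [h10, ttw]
        refine ⟨?_, h5⟩
        show 0 < (u - t) / 2
        linarith
      h5 := by
        have k := (par_lt hab).eventually hQ
        filter_upwards [k, Ioo_mem_nhdsLT hab] with s hs hs'
        obtain ⟨t, u, h5, h6, h7, h8⟩ := hs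
        obtain ⟨k1, k2⟩ := hγI s hs'
        have h9 := v3e t ⟨h5, by linarith⟩ u ⟨by linarith, h7.le⟩ _ (ttw t u) (uuw t u)
        have h10 : V3.symm (γ s) = ⟨(t + u) / 2, (u - t) / 2⟩ := by
          rw [k2, h8, ← h9, V3.symm_apply_apply]
        rw [h10, uuw]
        refine ⟨?_, h7⟩
        show 0 < (u - t) / 2
        linarith }
  obtain ⟨s, hs, s', hs', heq, him, hta, hub⟩ := H.main
  set w := V3.symm (γ s) with hw
  have htu : tt w < uu w := by simp only [tt, uu]; linarith
  have ht : tt w ∈ Icc a b := ⟨hta, by linarith⟩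
  have hu : uu w ∈ Icc a b := ⟨by linarith, hub⟩
  refine ⟨tt w, ht, uu w, hu, htu, ?_, ?_⟩
  · obtain ⟨k1, k2⟩ := hγI s hs
    refine ⟨_, k1, ?_⟩
    rw [← k2, ← v3e _ ht _ hu w rfl rfl, hw, V3.apply_symm_apply]
  · obtain ⟨k1, k2⟩ := hγI s' hs'
    refine ⟨_, k1, ?_⟩
    rw [← k2, ← v4e _ ht _ hu w rfl rfl, heq, V4.apply_symm_apply]

/-- A segment closed up by an arbitrary path in the open half strip over it. -/
theorem inscribed_strip (a b : ℝ) (hab : a < b) (g : ℝ → ℂ) (hg : ContinuousOn g (Icc 0 1))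
    (h0 : g 0 = a) (h1 : g 1 = b)
    (hs : ∀ s ∈ Ioo (0 : ℝ) 1, a < (g s).re ∧ (g s).re < b ∧ 0 < (g s).im)
    (φ l : ℝ) (hφ : 0 < φ) (hφ' : φ ≤ Real.pi / 2) (hl : 0 < l) :
    ∃ t ∈ Icc a b, ∃ u ∈ Icc a b, t < u ∧
      (u : ℂ) + l * exp (φ * I) * (u - t) ∈ g '' Ioo 0 1 ∧
      (t : ℂ) - l * exp (-(φ * I)) * (u - t) ∈ g '' Ioo 0 1 := by
  have hpi := Real.pi_pos
  have hcos : 0 ≤ Real.cos φ := Real.cos_nonneg_of_mem_Icc ⟨by linarith, hφ'⟩
  have hsin : 0 < Real.sin φ := Real.sin_pos_of_pos_of_lt_pi hφ (by linarith)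
  have z0 : ∀ x : ℝ, zz (fun _ => (0 : ℝ)) x = (x : ℂ) := fun x => rfl
  have hls : 0 < l * Real.sin φ := mul_pos hl hsin
  have e4 : ∀ t u : ℝ, (t : ℂ) - l * exp (-(φ * I)) * (u - t) =
      ⟨t - l * Real.cos φ * (u - t), l * Real.sin φ * (u - t)⟩ := by
    intro t u
    rw [kap']
    apply Complex.ext
    · simp only [Complex.sub_re, Complex.mul_re, Complex.sub_im, Complex.ofReal_re,
        Complex.ofReal_im]
      ring
    · simp only [Complex.sub_re, Complex.mul_im, Complex.sub_im, Complex.ofReal_re,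
        Complex.ofReal_im]
      ring
  have e3 : ∀ t u : ℝ, (u : ℂ) + l * exp (φ * I) * (u - t) =
      ⟨u + l * Real.cos φ * (u - t), l * Real.sin φ * (u - t)⟩ := by
    intro t u
    rw [kap]
    apply Complex.ext
    · simp only [Complex.sub_re, Complex.mul_re, Complex.sub_im, Complex.ofReal_re,
        Complex.ofReal_im, Complex.add_re]
      ring
    · simp only [Complex.sub_re, Complex.mul_im, Complex.sub_im, Complex.ofReal_re,
        Complex.ofReal_im, Complex.add_im]
      ring
  have hc0 : Tendsto g (𝓝[>] 0) (𝓝 (a : ℂ)) := by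
    have h2 : ContinuousWithinAt g (Icc 0 1) 0 := hg 0 ⟨le_rfl, zero_le_one⟩
    have h3 : Tendsto g (𝓝[Icc 0 1] 0) (𝓝 (g 0)) := h2
    rw [h0] at h3
    refine h3.mono_left ?_
    rw [nhdsWithin_le_iff]
    filter_upwards [Ioo_mem_nhdsGT (zero_lt_one (α := ℝ))] with s h
    exact ⟨h.1.le, h.2.le⟩
  have hc1 : Tendsto g (𝓝[<] 1) (𝓝 (b : ℂ)) := by
    have h2 : ContinuousWithinAt g (Icc 0 1) 1 := hg 1 ⟨zero_le_one, le_rfl⟩
    have h3 : Tendsto g (𝓝[Icc 0 1] 1) (𝓝 (g 1)) := h2
    rw [h1] at h3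
    refine h3.mono_left ?_
    rw [nhdsWithin_le_iff]
    filter_upwards [Ioo_mem_nhdsLT (zero_lt_one (α := ℝ))] with s h
    exact ⟨h.1.le, h.2.le⟩
  have key := inscribed_side φ l hφ (by linarith) hl (by positivity) 0 le_rfl
    (by
      rw [mul_zero, zero_mul]
      simpa using hsin) a b hab (fun _ => 0) (by intro x _ y _; simp) g hg
    (by rw [z0]; exact h0) (by rw [z0]; exact h1)
    (by
      intro s hs' x hx h
      have := (hs s hs').2.2
      rw [h, z0] at this
      simp at this)
    (by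
      intro s hs' u hu h
      have := (hs s hs').1
      rw [h, z0, z0, e4] at this
      have h2 : a < a - l * Real.cos φ * (u - a) := this
      have h3 : 0 ≤ l * Real.cos φ * (u - a) := by
        have := hu.1
        exact mul_nonneg (mul_nonneg hl.le hcos) (by linarith)
      linarith)
    (by
      intro s hs' t ht h
      have := (hs s hs').2.1
      rw [h, z0, z0, e3] at this
      have h2 : b + l * Real.cos φ * (b - t) < b := this
      have h3 : 0 ≤ l * Real.cos φ * (b - t) := by
        have := ht.2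
        exact mul_nonneg (mul_nonneg hl.le hcos) (by linarith)
      linarith)
    (by
      have hlim : Tendsto (fun s => (g s).re + (l * Real.cos φ) * ((g s).im / (l * Real.sin φ)) +
          (g s).im / (l * Real.sin φ)) (𝓝[>] 0) (𝓝 (a + (l * Real.cos φ) * (0 / (l * Real.sin φ)) +
          0 / (l * Real.sin φ))) := by
        have i1 := (Complex.continuous_re.tendsto _).comp hc0
        have i2 := (Complex.continuous_im.tendsto _).comp hc0
        simp only [Complex.ofReal_re, Complex.ofReal_im] at i1 i2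
        exact (i1.add ((i2.div_const _).const_mul _)).add (i2.div_const _)
      have hev := hlim.eventually (gt_mem_nhds (show a + (l * Real.cos φ) * (0 / (l * Real.sin φ)) +
          0 / (l * Real.sin φ) < b by rw [zero_div, mul_zero]; linarith))
      filter_upwards [hev, Ioo_mem_nhdsGT (zero_lt_one (α := ℝ))] with s k1 k2
      obtain ⟨k3, k4, k5⟩ := hs s k2
      have k6 : 0 < (g s).im / (l * Real.sin φ) := div_pos k5 hls
      set d := (g s).im / (l * Real.sin φ) with hd
      have k7 : 0 ≤ l * Real.cos φ * d := by positivity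
      refine ⟨(g s).re + l * Real.cos φ * d, (g s).re + l * Real.cos φ * d + d, by linarith,
        by linarith, k1.le, ?_⟩
      rw [z0, z0, e4]
      apply Complex.ext
      · simp only; ring
      · simp only
        rw [hd]
        field_simp
        ring)
    (by
      have hlim : Tendsto (fun s => (g s).re - (l * Real.cos φ) * ((g s).im / (l * Real.sin φ)) -
          (g s).im / (l * Real.sin φ)) (𝓝[<] 1) (𝓝 (b - (l * Real.cos φ) * (0 / (l * Real.sin φ)) -
          0 / (l * Real.sin φ))) := by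
        have i1 := (Complex.continuous_re.tendsto _).comp hc1
        have i2 := (Complex.continuous_im.tendsto _).comp hc1
        simp only [Complex.ofReal_re, Complex.ofReal_im] at i1 i2
        exact (i1.sub ((i2.div_const _).const_mul _)).sub (i2.div_const _)
      have hev := hlim.eventually (lt_mem_nhds (show a < b - (l * Real.cos φ) *
          (0 / (l * Real.sin φ)) - 0 / (l * Real.sin φ) by rw [zero_div, mul_zero]; linarith))
      filter_upwards [hev, Ioo_mem_nhdsLT (zero_lt_one (α := ℝ))] with s k1 k2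
      obtain ⟨k3, k4, k5⟩ := hs s k2
      have k6 : 0 < (g s).im / (l * Real.sin φ) := div_pos k5 hls
      set d := (g s).im / (l * Real.sin φ) with hd
      have k7 : 0 ≤ l * Real.cos φ * d := by positivity
      refine ⟨(g s).re - l * Real.cos φ * d - d, (g s).re - l * Real.cos φ * d, k1.le,
        by linarith, by linarith, ?_⟩
      rw [z0, z0, e3]
      apply Complex.ext
      · simp only; ring
      · simp only
        rw [hd]
        field_simp
        ring)
  simpa only [z0] using key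

end Pool.Agent.SideTrap
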