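import Pool.Agent.Lib.MP_2fd4e2_co.Side.Vol

/-!
The maps from pairs of points of the graph to the two other vertices of the trapezoid.
-/

set_option autoImplicit false

namespace Pool.Agent.SideTrap

open Complex Set Filter Topology MeasureTheory Pool.Agent.ArcTrap
open scoped ENNReal NNReal

/-- the point of the graph -/
def zz (f : ℝ → ℝ) (x : ℝ) : ℂ := ⟨x, f x⟩

/-- the vertex with the affine coordinate `c` over the side of the graph -/
def Vm (c : ℂ) (f : ℝ → ℝ) (w : ℂ) : ℂ := (1 - c) * zz f (tt w) + c * zz f (uu w)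

structure MD (f : ℝ → ℝ) (A a : ℝ) (c : ℂ) (P q : ℝ) : Prop where
  hf : ∀ x y, |f x - f y| ≤ A * |x - y|
  hA : 0 ≤ A
  hfa : ∀ x ≤ a, f x = f a
  hc : (starRingEnd ℂ) (1 - c) * c = ⟨-P, q⟩
  hq : 0 < q
  him : c.im = q
  hμ : 2 * A * |P| < q * (1 - A ^ 2)

theorem slope {f : ℝ → ℝ} {A : ℝ} (hf : ∀ x y, |f x - f y| ≤ A * |x - y|) (hA : 0 ≤ A)
    (x y : ℝ) : ∃ s : ℝ, |s| ≤ A ∧ zz f x - zz f y = ((x - y : ℝ) : ℂ) * ⟨1, s⟩ := by
  by_cases h : x = y
  · refine ⟨0, by rw [abs_zero]; exact hA, ?_⟩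
    rw [h]; simp
  · have h0 : x - y ≠ 0 := sub_ne_zero.mpr h
    refine ⟨(f x - f y) / (x - y), ?_, ?_⟩
    · rw [abs_div, div_le_iff₀ (abs_pos.mpr h0)]
      exact hf x y
    · apply Complex.ext
      · simp [zz]
      · simp only [zz, Complex.sub_im, Complex.mul_im, Complex.ofReal_re, Complex.ofReal_im,
          zero_mul, add_zero]
        field_simp

theorem MD.M_pos {f : ℝ → ℝ} {A a : ℝ} {c : ℂ} {P q : ℝ} (H : MD f A a c P q) :
    0 < (‖1 - c‖ + ‖c‖) * (1 + A) := by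
  have h1 : c ≠ 0 := by
    intro h
    have := H.him
    rw [h] at this
    simp at this
    linarith [H.hq]
  have h2 : 0 < ‖c‖ := norm_pos_iff.mpr h1
  have := H.hA
  have := norm_nonneg (1 - c)
  positivity

theorem MD.decomp {f : ℝ → ℝ} {A a : ℝ} {c : ℂ} {P q : ℝ} (H : MD f A a c P q) (w w' : ℂ) :
    ∃ X Y : ℂ, Vm c f w - Vm c f w' = ((tt w - tt w' : ℝ) : ℂ) * X + ((uu w - uu w' : ℝ) : ℂ) * Y ∧
      ‖X‖ ≤ (‖1 - c‖ + ‖c‖) * (1 + A) ∧ ‖Y‖ ≤ (‖1 - c‖ + ‖c‖) * (1 + A) ∧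
      q * (1 - A ^ 2) - 2 * A * |P| ≤ ((starRingEnd ℂ) X * Y).im := by
  obtain ⟨s1, h1, e1⟩ := slope H.hf H.hA (tt w) (tt w')
  obtain ⟨s2, h2, e2⟩ := slope H.hf H.hA (uu w) (uu w')
  have hA := H.hA
  have hn : ∀ s : ℝ, |s| ≤ A → ‖(⟨1, s⟩ : ℂ)‖ ≤ 1 + A := by
    intro s hs
    refine (Complex.norm_le_abs_re_add_abs_im _).trans ?_
    simp only [abs_one]
    linarith
  refine ⟨(1 - c) * ⟨1, s1⟩, c * ⟨1, s2⟩, ?_, ?_, ?_, ?_⟩
  · have : Vm c f w - Vm c f w' = (1 - c) * (zz f (tt w) - zz f (tt w')) +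
      c * (zz f (uu w) - zz f (uu w')) := by unfold Vm; ring
    rw [this, e1, e2]; ring
  · rw [norm_mul]
    apply mul_le_mul _ (hn s1 h1) (norm_nonneg _) (by positivity)
    linarith [norm_nonneg c]
  · rw [norm_mul]
    apply mul_le_mul _ (hn s2 h2) (norm_nonneg _) (by positivity)
    linarith [norm_nonneg (1 - c)]
  · have e : (starRingEnd ℂ) ((1 - c) * ⟨1, s1⟩) * (c * ⟨1, s2⟩) =
        (⟨-P, q⟩ : ℂ) * ((⟨1, -s1⟩ : ℂ) * ⟨1, s2⟩) := by
      rw [← H.hc, map_mul]
      have : (starRingEnd ℂ) (⟨1, s1⟩ : ℂ) = ⟨1, -s1⟩ := rfl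
      rw [this]; ring
    rw [e]
    simp only [Complex.mul_im, Complex.mul_re]
    have k1 : -(A ^ 2) ≤ s1 * s2 := by
      have h3 : |s1 * s2| ≤ A * A := by
        rw [abs_mul]; exact mul_le_mul h1 h2 (abs_nonneg _) hA
      have := neg_abs_le (s1 * s2)
      nlinarith
    have k2 : |P * (s2 - s1)| ≤ |P| * (2 * A) := by
      rw [abs_mul]
      apply mul_le_mul_of_nonneg_left _ (abs_nonneg _)
      have := abs_sub s2 s1
      linarith
    have k3 := (abs_le.mp k2).2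
    have k4 := mul_le_mul_of_nonneg_left k1 H.hq.le
    nlinarith

theorem MD.lower {f : ℝ → ℝ} {A a : ℝ} {c : ℂ} {P q : ℝ} (H : MD f A a c P q) :
    ∃ δ > 0, ∀ w w', δ * ‖w - w'‖ ≤ ‖Vm c f w - Vm c f w'‖ := by
  set M := (‖1 - c‖ + ‖c‖) * (1 + A) with hM
  have hMp : 0 < M := H.M_pos
  set μ := q * (1 - A ^ 2) - 2 * A * |P| with hμd
  have hμ : 0 < μ := by have := H.hμ; simp only [hμd]; linarith
  refine ⟨μ / (2 * M), by positivity, fun w w' => ?_⟩
  obtain ⟨X, Y, e, hX, hY, hXY⟩ := H.decomp w w'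
  set x := tt w - tt w' with hx
  set y := uu w - uu w' with hy
  rw [e]
  have k1 : ‖w - w'‖ ≤ |x| + |y| := by
    refine (Complex.norm_le_abs_re_add_abs_im _).trans ?_
    have e1 : (w - w').re = (x + y) / 2 := by simp only [hx, hy, tt, uu, Complex.sub_re]; ring
    have e2 : (w - w').im = (y - x) / 2 := by simp only [hx, hy, tt, uu, Complex.sub_im]; ring
    rw [e1, e2, abs_div, abs_div, abs_two]
    have h1 := abs_add_le x y
    have h2 := abs_sub y x
    linarith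
  have k2 : |y| * μ ≤ M * ‖(x : ℂ) * X + (y : ℂ) * Y‖ := by
    have h1 : ((starRingEnd ℂ) X * ((x : ℂ) * X + (y : ℂ) * Y)).im =
        y * ((starRingEnd ℂ) X * Y).im := by
      simp only [Complex.mul_im, Complex.mul_re, Complex.add_im, Complex.add_re,
        Complex.conj_re, Complex.conj_im, Complex.ofReal_re, Complex.ofReal_im]
      ring
    have h2 : |y| * μ ≤ |((starRingEnd ℂ) X * ((x : ℂ) * X + (y : ℂ) * Y)).im| := by
      rw [h1, abs_mul]
      apply mul_le_mul_of_nonneg_left _ (abs_nonneg _)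
      exact hXY.trans (le_abs_self _)
    refine h2.trans ((Complex.abs_im_le_norm _).trans ?_)
    rw [norm_mul, Complex.norm_conj]
    exact mul_le_mul_of_nonneg_right hX (norm_nonneg _)
  have k3 : |x| * μ ≤ M * ‖(x : ℂ) * X + (y : ℂ) * Y‖ := by
    have h1 : ((starRingEnd ℂ) ((x : ℂ) * X + (y : ℂ) * Y) * Y).im =
        x * ((starRingEnd ℂ) X * Y).im := by
      simp only [Complex.mul_im, Complex.mul_re, Complex.add_im, Complex.add_re,
        Complex.conj_re, Complex.conj_im, Complex.ofReal_re, Complex.ofReal_im]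
      ring
    have h2 : |x| * μ ≤ |((starRingEnd ℂ) ((x : ℂ) * X + (y : ℂ) * Y) * Y).im| := by
      rw [h1, abs_mul]
      apply mul_le_mul_of_nonneg_left _ (abs_nonneg _)
      exact hXY.trans (le_abs_self _)
    refine h2.trans ((Complex.abs_im_le_norm _).trans ?_)
    rw [norm_mul, Complex.norm_conj, mul_comm]
    exact mul_le_mul_of_nonneg_right hY (norm_nonneg _)
  have k4 : ‖w - w'‖ * μ ≤ 2 * M * ‖(x : ℂ) * X + (y : ℂ) * Y‖ := by
    have := mul_le_mul_of_nonneg_right k1 hμ.le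
    linarith
  rw [div_mul_eq_mul_div, div_le_iff₀ (by positivity)]
  linarith

theorem MD.lip {f : ℝ → ℝ} {A a : ℝ} {c : ℂ} {P q : ℝ} (H : MD f A a c P q) :
    ∃ K : ℝ≥0, LipschitzWith K (Vm c f) := by
  set M := (‖1 - c‖ + ‖c‖) * (1 + A) with hM
  have hMp : 0 < M := H.M_pos
  refine ⟨(4 * M).toNNReal, LipschitzWith.of_dist_le_mul fun w w' => ?_⟩
  rw [Real.coe_toNNReal _ (by positivity), dist_eq_norm, dist_eq_norm]
  obtain ⟨X, Y, e, hX, hY, -⟩ := H.decomp w w'
  set x := tt w - tt w' with hx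
  set y := uu w - uu w' with hy
  rw [e]
  have r1 : |x| ≤ 2 * ‖w - w'‖ := by
    have e1 : x = (w - w').re - (w - w').im := by
      simp only [hx, tt, Complex.sub_re, Complex.sub_im]; ring
    rw [e1]
    have := abs_sub (w - w').re (w - w').im
    have := Complex.abs_re_le_norm (w - w')
    have := Complex.abs_im_le_norm (w - w')
    linarith
  have r2 : |y| ≤ 2 * ‖w - w'‖ := by
    have e1 : y = (w - w').re + (w - w').im := by
      simp only [hy, uu, Complex.sub_re, Complex.sub_im]; ring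
    rw [e1]
    have := abs_add_le (w - w').re (w - w').im
    have := Complex.abs_re_le_norm (w - w')
    have := Complex.abs_im_le_norm (w - w')
    linarith
  refine (norm_add_le _ _).trans ?_
  rw [norm_mul, norm_mul, Complex.norm_real, Complex.norm_real, Real.norm_eq_abs,
    Real.norm_eq_abs]
  have h1 : |x| * ‖X‖ ≤ 2 * ‖w - w'‖ * M :=
    mul_le_mul r1 hX (norm_nonneg _) (by positivity)
  have h2 : |y| * ‖Y‖ ≤ 2 * ‖w - w'‖ * M :=
    mul_le_mul r2 hY (norm_nonneg _) (by positivity)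
  linarith

theorem MD.homeo {f : ℝ → ℝ} {A a : ℝ} {c : ℂ} {P q : ℝ} (H : MD f A a c P q) :
    ∃ e : ℂ ≃ₜ ℂ, ∀ x, e x = Vm c f x := by
  obtain ⟨δ, hδ, h⟩ := H.lower
  obtain ⟨K, hK⟩ := H.lip
  exact exists_homeo_of_lower hK.continuous hδ h

theorem Vm_real (c : ℂ) (f : ℝ → ℝ) (x : ℝ) : Vm c f (x : ℂ) = zz f x := by
  have h1 : tt (x : ℂ) = x := by simp [tt]
  have h2 : uu (x : ℂ) = x := by simp [uu]
  unfold Vm
  rw [h1, h2]; ring

/-- derivative of the vertex in the direction changing only the first point -/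
theorem deriv_t {f : ℝ → ℝ} {c : ℂ} {w : ℂ} (hc : 1 - c ≠ 0) (h : DifferentiableAt ℝ (Vm c f) w) :
    HasDerivAt (fun s : ℝ => zz f (tt w + s))
      ((1 - c)⁻¹ * fderiv ℝ (Vm c f) w ⟨1 / 2, -1 / 2⟩) 0 := by
  have hl : HasDerivAt (fun s : ℝ => w + s • (⟨1 / 2, -1 / 2⟩ : ℂ)) (⟨1 / 2, -1 / 2⟩ : ℂ) 0 := by
    have h1 : HasDerivAt (fun s : ℝ => s • (⟨1 / 2, -1 / 2⟩ : ℂ))
        ((1 : ℝ) • (⟨1 / 2, -1 / 2⟩ : ℂ)) 0 := (hasDerivAt_id (0 : ℝ)).smul_const _
    rw [one_smul] at h1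
    exact h1.const_add w
  have h2 : HasFDerivAt (Vm c f) (fderiv ℝ (Vm c f) w) (w + (0 : ℝ) • (⟨1 / 2, -1 / 2⟩ : ℂ)) := by
    rw [zero_smul, add_zero]; exact h.hasFDerivAt
  have h3 := h2.comp_hasDerivAt (0 : ℝ) hl
  have h4 := (h3.sub_const (c * zz f (uu w))).const_mul (1 - c)⁻¹
  refine h4.congr_of_eventuallyEq (Eventually.of_forall fun s => ?_)
  have e1 : tt (w + s • (⟨1 / 2, -1 / 2⟩ : ℂ)) = tt w + s := by
    simp only [tt, Complex.add_re, Complex.add_im, Complex.real_smul, Complex.mul_re,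
      Complex.mul_im, Complex.ofReal_re, Complex.ofReal_im]
    ring
  have e2 : uu (w + s • (⟨1 / 2, -1 / 2⟩ : ℂ)) = uu w := by
    simp only [uu, Complex.add_re, Complex.add_im, Complex.real_smul, Complex.mul_re,
      Complex.mul_im, Complex.ofReal_re, Complex.ofReal_im]
    ring
  simp only [Function.comp_apply]
  unfold Vm
  rw [e1, e2, add_sub_cancel_right, inv_mul_cancel_left₀ hc]

theorem deriv_u {f : ℝ → ℝ} {c : ℂ} {w : ℂ} (hc : c ≠ 0) (h : DifferentiableAt ℝ (Vm c f) w) :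
    HasDerivAt (fun s : ℝ => zz f (uu w + s))
      (c⁻¹ * fderiv ℝ (Vm c f) w ⟨1 / 2, 1 / 2⟩) 0 := by
  have hl : HasDerivAt (fun s : ℝ => w + s • (⟨1 / 2, 1 / 2⟩ : ℂ)) (⟨1 / 2, 1 / 2⟩ : ℂ) 0 := by
    have h1 : HasDerivAt (fun s : ℝ => s • (⟨1 / 2, 1 / 2⟩ : ℂ))
        ((1 : ℝ) • (⟨1 / 2, 1 / 2⟩ : ℂ)) 0 := (hasDerivAt_id (0 : ℝ)).smul_const _
    rw [one_smul] at h1
    exact h1.const_add w
  have h2 : HasFDerivAt (Vm c f) (fderiv ℝ (Vm c f) w) (w + (0 : ℝ) • (⟨1 / 2, 1 / 2⟩ : ℂ)) := by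
    rw [zero_smul, add_zero]; exact h.hasFDerivAt
  have h3 := h2.comp_hasDerivAt (0 : ℝ) hl
  have h4 := (h3.sub_const ((1 - c) * zz f (tt w))).const_mul c⁻¹
  refine h4.congr_of_eventuallyEq (Eventually.of_forall fun s => ?_)
  have e1 : tt (w + s • (⟨1 / 2, 1 / 2⟩ : ℂ)) = tt w := by
    simp only [tt, Complex.add_re, Complex.add_im, Complex.real_smul, Complex.mul_re,
      Complex.mul_im, Complex.ofReal_re, Complex.ofReal_im]
    ring
  have e2 : uu (w + s • (⟨1 / 2, 1 / 2⟩ : ℂ)) = uu w + s := by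
    simp only [uu, Complex.add_re, Complex.add_im, Complex.real_smul, Complex.mul_re,
      Complex.mul_im, Complex.ofReal_re, Complex.ofReal_im]
    ring
  simp only [Function.comp_apply]
  unfold Vm
  rw [e1, e2, add_sub_cancel_left, inv_mul_cancel_left₀ hc]

/-- the determinants agree -/
theorem det_Vm {f : ℝ → ℝ} {c d : ℂ} (hcd : (starRingEnd ℂ) (1 - c) * c =
    (starRingEnd ℂ) (1 - d) * d) (hc0 : c ≠ 0) (hc1 : 1 - c ≠ 0) (hd0 : d ≠ 0) (hd1 : 1 - d ≠ 0)
    (w : ℂ) (h : DifferentiableAt ℝ (Vm c f) w) (h' : DifferentiableAt ℝ (Vm d f) w) :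
    (fderiv ℝ (Vm c f) w).det = (fderiv ℝ (Vm d f) w).det := by
  have e1 := (deriv_t hc1 h).unique (deriv_t hd1 h')
  have e2 := (deriv_u hc0 h).unique (deriv_u hd0 h')
  rw [det_eq', det_eq']
  generalize fderiv ℝ (Vm c f) w ⟨1 / 2, -1 / 2⟩ = X at *
  generalize fderiv ℝ (Vm c f) w ⟨1 / 2, 1 / 2⟩ = Y at *
  generalize fderiv ℝ (Vm d f) w ⟨1 / 2, -1 / 2⟩ = X' at *
  generalize fderiv ℝ (Vm d f) w ⟨1 / 2, 1 / 2⟩ = Y' at *
  obtain ⟨D, hD⟩ : ∃ D, D = (1 - c)⁻¹ * X := ⟨_, rfl⟩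
  obtain ⟨E, hE⟩ : ∃ E, E = c⁻¹ * Y := ⟨_, rfl⟩
  rw [← hD] at e1
  rw [← hE] at e2
  have hX : X = (1 - c) * D := by rw [hD, mul_inv_cancel_left₀ hc1]
  have hY : Y = c * E := by rw [hE, mul_inv_cancel_left₀ hc0]
  have hX' : X' = (1 - d) * D := by rw [e1, mul_inv_cancel_left₀ hd1]
  have hY' : Y' = d * E := by rw [e2, mul_inv_cancel_left₀ hd0]
  have k1 : (starRingEnd ℂ) X * Y =
      ((starRingEnd ℂ) (1 - c) * c) * ((starRingEnd ℂ) D * E) := by
    rw [hX, hY, map_mul]; ring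
  have k2 : (starRingEnd ℂ) X' * Y' =
      ((starRingEnd ℂ) (1 - d) * d) * ((starRingEnd ℂ) D * E) := by
    rw [hX', hY', map_mul]; ring
  rw [k1, k2, hcd]

/-- the upper half plane goes above the graph, the lower one below it -/
theorem MD.side {f : ℝ → ℝ} {A a : ℝ} {c : ℂ} {P q : ℝ} (H : MD f A a c P q)
    (V : ℂ ≃ₜ ℂ) (hV : ∀ x, V x = Vm c f x) :
    (∀ w : ℂ, 0 < w.im → f (V w).re < (V w).im) ∧
    (∀ w : ℂ, w.im < 0 → (V w).im < f (V w).re) := by
  have hfc : Continuous f := by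
    have : LipschitzWith A.toNNReal f := by
      apply LipschitzWith.of_dist_le_mul
      intro x y
      rw [Real.coe_toNNReal _ H.hA, Real.dist_eq, Real.dist_eq]
      exact H.hf x y
    exact this.continuous
  have hmiss : ∀ w : ℂ, w.im ≠ 0 → f (V w).re ≠ (V w).im := by
    intro w hw h
    have h1 : V w = V (((V w).re : ℝ) : ℂ) := by
      rw [hV (((V w).re : ℝ) : ℂ), Vm_real]
      apply Complex.ext
      · rfl
      · exact h.symm
    have h2 := V.injective h1
    apply hw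
    rw [h2]
    simp
  have hq := H.hq
  have him := H.him
  have hval : ∀ t u : ℝ, t ≤ a → u ≤ a → V ⟨(t + u) / 2, (u - t) / 2⟩ =
      ⟨t + c.re * (u - t), f a + q * (u - t)⟩ := by
    intro t u ht hu
    rw [hV]
    have e1 : tt ⟨(t + u) / 2, (u - t) / 2⟩ = t := by simp only [tt]; ring
    have e2 : uu ⟨(t + u) / 2, (u - t) / 2⟩ = u := by simp only [uu]; ring
    unfold Vm
    rw [e1, e2]
    unfold zz
    rw [H.hfa t ht, H.hfa u hu]
    apply Complex.ext
    · simp only [Complex.add_re, Complex.mul_re, Complex.sub_re, Complex.sub_im, Complex.one_re,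
        Complex.one_im]
      ring
    · simp only [Complex.add_im, Complex.mul_im, Complex.sub_re, Complex.sub_im, Complex.one_re,
        Complex.one_im]
      rw [him]
      ring
  constructor
  · have hpc : IsPreconnected {w : ℂ | 0 < w.im} := (convex_halfSpace_im_gt 0).isPreconnected
    have hcont : ContinuousOn (fun w => (V w).im - f (V w).re) {w : ℂ | 0 < w.im} :=
      (((Complex.continuous_im.comp V.continuous)).sub
        (hfc.comp (Complex.continuous_re.comp V.continuous))).continuousOn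
    set t : ℝ := a - 1 - |c.re| with ht
    have hca := neg_abs_le c.re
    have hca' := le_abs_self c.re
    have h0 : (⟨(t + (t + 1)) / 2, ((t + 1) - t) / 2⟩ : ℂ) ∈ {w : ℂ | 0 < w.im} := by
      show 0 < ((t + 1) - t) / 2
      linarith
    have h1 : 0 < (fun w => (V w).im - f (V w).re) (⟨(t + (t + 1)) / 2, ((t + 1) - t) / 2⟩ : ℂ) := by
      simp only
      rw [hval t (t + 1) (by rw [ht]; linarith [abs_nonneg c.re])
        (by rw [ht]; linarith [abs_nonneg c.re])]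
      simp only
      rw [H.hfa (t + c.re * (t + 1 - t)) (by rw [ht]; linarith)]
      linarith
    intro w hw
    by_contra hcon
    push Not at hcon
    have h2 : (fun w => (V w).im - f (V w).re) w ≤ 0 := by simp only; linarith
    obtain ⟨w', hw', h3⟩ := hpc.intermediate_value hw h0 hcont ⟨h2, h1.le⟩
    simp only at h3
    have hw'' : 0 < w'.im := hw'
    exact hmiss w' hw''.ne' (by linarith)
  · have hpc : IsPreconnected {w : ℂ | w.im < 0} := (convex_halfSpace_im_lt 0).isPreconnected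
    have hcont : ContinuousOn (fun w => (V w).im - f (V w).re) {w : ℂ | w.im < 0} :=
      (((Complex.continuous_im.comp V.continuous)).sub
        (hfc.comp (Complex.continuous_re.comp V.continuous))).continuousOn
    set u : ℝ := a - 1 - |c.re| with hu
    have hca := neg_abs_le c.re
    have hca' := le_abs_self c.re
    have h0 : (⟨((u + 1) + u) / 2, (u - (u + 1)) / 2⟩ : ℂ) ∈ {w : ℂ | w.im < 0} := by
      show (u - (u + 1)) / 2 < 0
      linarith
    have h1 : (fun w => (V w).im - f (V w).re) (⟨((u + 1) + u) / 2, (u - (u + 1)) / 2⟩ : ℂ) < 0 := by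
      simp only
      rw [hval (u + 1) u (by rw [hu]; linarith [abs_nonneg c.re])
        (by rw [hu]; linarith [abs_nonneg c.re])]
      simp only
      rw [H.hfa (u + 1 + c.re * (u - (u + 1))) (by rw [hu]; linarith)]
      linarith
    intro w hw
    by_contra hcon
    push Not at hcon
    have h2 : 0 ≤ (fun w => (V w).im - f (V w).re) w := by simp only; linarith
    obtain ⟨w', hw', h3⟩ := hpc.intermediate_value h0 hw hcont ⟨h1.le, h2⟩
    simp only at h3
    have hw'' : w'.im < 0 := hw'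
    exact hmiss w' hw''.ne (by linarith)

theorem MD.above {f : ℝ → ℝ} {A a : ℝ} {c : ℂ} {P q : ℝ} (H : MD f A a c P q)
    (V : ℂ ≃ₜ ℂ) (hV : ∀ x, V x = Vm c f x) (z : ℂ) :
    0 < (V.symm z).im ↔ f z.re < z.im := by
  obtain ⟨h1, h2⟩ := H.side V hV
  constructor
  · intro h
    have := h1 _ h
    rwa [V.apply_symm_apply] at this
  · intro h
    rcases lt_trichotomy (V.symm z).im 0 with h3 | h3 | h3
    · have := h2 _ h3
      rw [V.apply_symm_apply] at this
      linarith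
    · exfalso
      have h4 : V.symm z = (((V.symm z).re : ℝ) : ℂ) := by
        apply Complex.ext
        · simp
        · simpa using h3
      have h5 : z = zz f (V.symm z).re := by
        rw [← Vm_real c f, ← hV, ← h4, V.apply_symm_apply]
      rw [h5] at h
      simp [zz] at h
    · exact h3

/-- the pair of homeomorphisms -/
theorem pair {f : ℝ → ℝ} {A a : ℝ} {c d : ℂ} {P q : ℝ} (H : MD f A a c P q) (H' : MD f A a d P q)
    (hre : 0 < c.re - d.re) :
    ∃ V3 V4 : ℂ ≃ₜ ℂ, (∀ x, V3 x = Vm c f x) ∧ (∀ x, V4 x = Vm d f x) ∧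
      (∀ S : Set ℂ, IsOpen S → volume (V3 '' S) = volume (V4 '' S)) ∧
      (∀ w : ℂ, 0 < w.im → (V4 w).re < (V3 w).re) ∧
      (∀ z : ℂ, 0 < (V3.symm z).im ↔ f z.re < z.im) ∧
      (∀ z : ℂ, 0 < (V4.symm z).im ↔ f z.re < z.im) := by
  obtain ⟨V3, h3⟩ := H.homeo
  obtain ⟨V4, h4⟩ := H'.homeo
  have nz : ∀ {c : ℂ}, MD f A a c P q → c ≠ 0 ∧ 1 - c ≠ 0 := by
    intro c H
    have := H.hq
    have h := H.him
    constructor
    · intro h1; rw [h1] at h; simp at h; linarith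
    · intro h1
      have : c = 1 := by linear_combination -h1
      rw [this] at h; simp at h; linarith
  refine ⟨V3, V4, h3, h4, ?_, ?_, H.above V3 h3, H'.above V4 h4⟩
  · intro S hS
    obtain ⟨K, hK⟩ := H.lip
    obtain ⟨K', hK'⟩ := H'.lip
    have e3 : (V3 : ℂ → ℂ) = Vm c f := funext h3
    have e4 : (V4 : ℂ → ℂ) = Vm d f := funext h4
    have i3 : Function.Injective (Vm c f) := by rw [← e3]; exact V3.injective
    have i4 : Function.Injective (Vm d f) := by rw [← e4]; exact V4.injective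
    rw [e3, e4]
    apply vol_eq hK hK' i3 i4 _ S hS
    intro x hx hx'
    exact det_Vm (by rw [H.hc, H'.hc]) (nz H).1 (nz H).2 (nz H').1 (nz H').2 x hx hx'
  · intro w hw
    rw [h3, h4]
    have e : Vm c f w - Vm d f w = (c - d) * (zz f (uu w) - zz f (tt w)) := by
      unfold Vm; ring
    have him : (c - d).im = 0 := by rw [Complex.sub_im, H.him, H'.him, sub_self]
    have e2 : (Vm c f w).re - (Vm d f w).re = (c.re - d.re) * (uu w - tt w) := by
      rw [← Complex.sub_re, e, Complex.mul_re, him]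
      simp [zz]
    have h5 : 0 < uu w - tt w := by simp only [uu, tt]; linarith
    have := mul_pos hre h5
    linarith

end Pool.Agent.SideTrap
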