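import Pool.Agent.Lib.MP_2fd4e2_co.Side.Confine

/-!
The region between a segment and a path.
-/

set_option autoImplicit false

namespace Pool.Agent.SideTrap

open Complex Set Filter Topology Pool.Agent.ArcTrap

/-- the segment `[a, b]` and the path `F` -/
def Ks (a b : ℝ) (F : ℝ → ℂ) : Set ℂ := Jset (fun _ => 0) a b F

theorem mem_Ks {a b : ℝ} {F : ℝ → ℂ} {z : ℂ} : z ∈ Ks a b F ↔
    (∃ t ∈ Icc a b, F t = z) ∨ (a ≤ z.re ∧ z.re ≤ b ∧ z.im = 0) := Iff.rfl

theorem isClosed_Ks {a b : ℝ} {F : ℝ → ℂ} (hF : Continuous F) : IsClosed (Ks a b F) := by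
  have e : Ks a b F = F '' Icc a b ∪ {z | a ≤ z.re ∧ z.re ≤ b ∧ z.im = 0} := by
    ext z
    rw [mem_Ks]
    rfl
  rw [e]
  refine (isCompact_Icc.image hF).isClosed.union ?_
  exact (isClosed_le continuous_const Complex.continuous_re).inter
    ((isClosed_le Complex.continuous_re continuous_const).inter
      (isClosed_eq Complex.continuous_im continuous_const))

/-- the frontier of a component of an open set -/
theorem frontier_component {K : Set ℂ} (hK : IsClosed K) (w : ℂ) :
    frontier (connectedComponentIn Kᶜ w) ⊆ K := by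
  intro z hz
  by_contra hzK
  have hopen : IsOpen (connectedComponentIn Kᶜ w) := hK.isOpen_compl.connectedComponentIn
  have hz1 : z ∈ connectedComponentIn Kᶜ z := mem_connectedComponentIn hzK
  have hop : IsOpen (connectedComponentIn Kᶜ z) := hK.isOpen_compl.connectedComponentIn
  obtain ⟨x, hx1, hx2⟩ := mem_closure_iff.mp hz.1 _ hop hz1
  have e1 := connectedComponentIn_eq hx1
  have e2 := connectedComponentIn_eq hx2
  have : z ∈ connectedComponentIn Kᶜ w := by rw [e2, ← e1]; exact hz1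
  exact hz.2 (by rw [hopen.interior_eq]; exact this)

/-- data of a path over the segment -/
structure Path' (a b : ℝ) (F : ℝ → ℂ) : Prop where
  hab : a < b
  hF : Continuous F
  ha : F a = a
  hb : F b = b
  hseg : ∀ s ∈ Ioo a b, ¬ (a ≤ (F s).re ∧ (F s).re ≤ b ∧ (F s).im = 0)
  him : ∀ s ∈ Ioo a b, 0 ≤ (F s).im

variable {a b : ℝ} {F : ℝ → ℂ}

theorem Path'.im_nonneg (S : Path' a b F) {z : ℂ} (hz : z ∈ Ks a b F) : 0 ≤ z.im := by
  rcases hz with ⟨t, ht, rfl⟩ | ⟨_, _, h⟩
  · rcases ht.1.eq_or_lt with h | h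
    · rw [← h, S.ha]; simp
    · rcases ht.2.eq_or_lt with h' | h'
      · rw [h', S.hb]; simp
      · exact S.him t ⟨h, h'⟩
  · exact h.ge

theorem Path'.half_disc (S : Path' a b F) : ∃ ρ > 0, ∀ z : ℂ, ‖z - ((a + b) / 2 : ℝ)‖ < ρ →
    0 < z.im → z ∉ Ks a b F := by
  set m : ℝ := (a + b) / 2 with hm
  have hmF : (m : ℂ) ∉ F '' Icc a b := by
    rintro ⟨t, ht, h⟩
    rcases ht.1.eq_or_lt with h1 | h1
    · rw [← h1, S.ha] at h
      have : a = m := by exact_mod_cast h
      rw [hm] at this; linarith [S.hab]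
    · rcases ht.2.eq_or_lt with h2 | h2
      · rw [h2, S.hb] at h
        have : b = m := by exact_mod_cast h
        rw [hm] at this; linarith [S.hab]
      · apply S.hseg t ⟨h1, h2⟩
        rw [h]
        refine ⟨?_, ?_, Complex.ofReal_im m⟩
        · rw [Complex.ofReal_re, hm]; linarith [S.hab]
        · rw [Complex.ofReal_re, hm]; linarith [S.hab]
  have hcl : IsClosed (F '' Icc a b) := (isCompact_Icc.image S.hF).isClosed
  obtain ⟨ρ, hρ, hball⟩ := Metric.isOpen_iff.mp hcl.isOpen_compl _ hmF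
  refine ⟨ρ, hρ, ?_⟩
  rintro z hz him (⟨t, ht, h⟩ | ⟨_, _, h⟩)
  · exact hball (by rw [Metric.mem_ball, dist_eq_norm]; exact hz) ⟨t, ht, h⟩
  · linarith

theorem half_disc_convex (m : ℂ) (ρ : ℝ) : Convex ℝ {z : ℂ | ‖z - m‖ < ρ ∧ 0 < z.im} := by
  have e : {z : ℂ | ‖z - m‖ < ρ ∧ 0 < z.im} = Metric.ball m ρ ∩ {z | 0 < z.im} := by
    ext z
    rw [mem_inter_iff, Metric.mem_ball, dist_eq_norm]
    rfl
  rw [e]
  exact (convex_ball m ρ).inter (convex_halfSpace_im_gt 0)

/-- the region under the path -/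
def Reg (a b : ℝ) (F : ℝ → ℂ) (w : ℂ) : Set ℂ := connectedComponentIn (Ks a b F)ᶜ w

theorem isOpen_Reg (S : Path' a b F) (w : ℂ) : IsOpen (Reg a b F w) :=
  (isClosed_Ks S.hF).isOpen_compl.connectedComponentIn

theorem pre_Reg (w : ℂ) : IsPreconnected (Reg a b F w) := isPreconnected_connectedComponentIn

theorem Reg_sub (w : ℂ) : Reg a b F w ⊆ (Ks a b F)ᶜ := connectedComponentIn_subset _ _

theorem mem_Reg {w : ℂ} (hw : w ∉ Ks a b F) : w ∈ Reg a b F w := mem_connectedComponentIn hw

/-- a connected set off the curve that meets the region is contained in it -/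
theorem sub_Reg {w : ℂ} {T : Set ℂ} (hT : IsPreconnected T)
    (hTK : ∀ z ∈ T, z ∉ Ks a b F) {x : ℂ} (hx : x ∈ T) (hxR : x ∈ Reg a b F w) :
    T ⊆ Reg a b F w := by
  have h1 := hT.subset_connectedComponentIn hx hTK
  have h2 := connectedComponentIn_eq hxR
  unfold Reg
  rw [h2]
  exact h1

/-- bounds for the region -/
theorem Path'.bounds (S : Path' a b F) : ∃ R > 0, ∀ z ∈ Ks a b F, |z.re| < R ∧ |z.im| < R := by
  obtain ⟨R, hR⟩ := (isCompact_Icc (a := a) (b := b)).exists_bound_of_continuousOn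
    S.hF.continuousOn
  refine ⟨|R| + |a| + |b| + 1, by positivity, ?_⟩
  have hRa := le_abs_self R
  have h1 := abs_nonneg a
  have h2 := abs_nonneg b
  have h3 := abs_nonneg R
  rintro z (⟨t, ht, rfl⟩ | ⟨ha, hb, h⟩)
  · have := hR t ht
    have := Complex.abs_re_le_norm (F t)
    have := Complex.abs_im_le_norm (F t)
    constructor <;> linarith
  · constructor
    · rw [abs_lt]
      have := neg_abs_le a
      have := le_abs_self b
      constructor <;> linarith
    · rw [h, abs_zero]; linarith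

/-- the region is bounded -/
theorem Path'.reg_bounded (S : Path' a b F) {ρ : ℝ}
    (hρ : ∀ z : ℂ, ‖z - ((a + b) / 2 : ℝ)‖ < ρ → 0 < z.im → z ∉ Ks a b F)
    {w : ℂ} (hw : ‖w - ((a + b) / 2 : ℝ)‖ < ρ) (hwi : 0 < w.im) :
    ∃ R > 0, ∀ z ∈ Reg a b F w, |z.re| ≤ R ∧ |z.im| ≤ R := by
  obtain ⟨R, hR, hK⟩ := S.bounds
  refine ⟨R, hR, ?_⟩
  -- the lower half plane is not in the region
  have hlow : ¬ ({z : ℂ | z.im < 0} ⊆ Reg a b F w) := by
    intro hsub
    obtain ⟨h, hh, hz, hev⟩ := sep (f := fun _ => 0) continuous_const S.hab S.hF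
      (by rw [S.ha]; apply Complex.ext <;> simp) (by rw [S.hb]; apply Complex.ext <;> simp)
      (fun t ht => S.hseg t ht)
    have hρ0 : 0 < ρ := (norm_nonneg _).trans_lt hw
    obtain ⟨y, hy, hy2⟩ := (hev.and (Ioo_mem_nhdsGT hρ0)).exists
    have hT : {z : ℂ | ‖z - ((a + b) / 2 : ℝ)‖ < ρ ∧ 0 < z.im} ⊆ Reg a b F w := by
      apply sub_Reg (half_disc_convex _ _).isPreconnected (x := w)
      · rintro z ⟨h1, h2⟩
        exact hρ z h1 h2
      · exact ⟨hw, hwi⟩
      · exact mem_Reg (hρ w hw hwi)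
    have h1 : (⟨(a + b) / 2, 0 + y⟩ : ℂ) ∈ Reg a b F w := by
      apply hT
      constructor
      · have e : (⟨(a + b) / 2, 0 + y⟩ : ℂ) - ((a + b) / 2 : ℝ) = (y : ℂ) * I := by
          apply Complex.ext <;> simp
        rw [e, norm_mul, Complex.norm_real, Complex.norm_I, mul_one, Real.norm_eq_abs,
          abs_of_pos hy2.1]
        exact hy2.2
      · show 0 < 0 + y
        linarith [hy2.1]
    have h2 : (⟨(a + b) / 2, 0 - y⟩ : ℂ) ∈ Reg a b F w := by
      apply hsub
      show 0 - y < 0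
      linarith [hy2.1]
    have h3 := (GenTrap.sign_const hh (pre_Reg w) (fun z hzR h0 => Reg_sub w hzR (hz z h0))
      h1 h2).1 hy.1
    linarith [hy.2]
  intro z hzR
  by_contra hcon
  apply hlow
  have hlowK : ∀ x ∈ {z : ℂ | z.im < 0}, x ∉ Ks a b F := by
    intro x hx hxK
    have := S.im_nonneg hxK
    have hx' : x.im < 0 := hx
    linarith
  have hlowC : IsPreconnected {z : ℂ | z.im < 0} := (convex_halfSpace_im_lt 0).isPreconnected
  -- the four half planes
  have hright : ∀ x ∈ {z : ℂ | R < z.re}, x ∉ Ks a b F := by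
    intro x hx hxK
    have h1 := (abs_lt.mp (hK x hxK).1).2
    have hx' : R < x.re := hx
    linarith
  have hleft : ∀ x ∈ {z : ℂ | z.re < -R}, x ∉ Ks a b F := by
    intro x hx hxK
    have h1 := (abs_lt.mp (hK x hxK).1).1
    have hx' : x.re < -R := hx
    linarith
  have htop : ∀ x ∈ {z : ℂ | R < z.im}, x ∉ Ks a b F := by
    intro x hx hxK
    have h1 := (abs_lt.mp (hK x hxK).2).2
    have hx' : R < x.im := hx
    linarith
  have fromRight : (∃ x ∈ Reg a b F w, R < x.re) → {z : ℂ | z.im < 0} ⊆ Reg a b F w := by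
    rintro ⟨x, hx, hxr⟩
    have h1 := sub_Reg (convex_halfSpace_re_gt R).isPreconnected hright hxr hx
    have h2 : (⟨R + 1, -1⟩ : ℂ) ∈ Reg a b F w := h1 (by show R < R + 1; linarith)
    exact sub_Reg hlowC hlowK (x := ⟨R + 1, -1⟩) (by show (-1 : ℝ) < 0; norm_num) h2
  have fromLeft : (∃ x ∈ Reg a b F w, x.re < -R) → {z : ℂ | z.im < 0} ⊆ Reg a b F w := by
    rintro ⟨x, hx, hxr⟩
    have h1 := sub_Reg (convex_halfSpace_re_lt (-R)).isPreconnected hleft hxr hx
    have h2 : (⟨-R - 1, -1⟩ : ℂ) ∈ Reg a b F w := h1 (by show -R - 1 < -R; linarith)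
    exact sub_Reg hlowC hlowK (x := ⟨-R - 1, -1⟩) (by show (-1 : ℝ) < 0; norm_num) h2
  rw [not_and_or] at hcon
  rcases hcon with h | h
  · rw [abs_le, not_and_or] at h
    rcases h with h | h
    · exact fromLeft ⟨z, hzR, not_le.mp h⟩
    · exact fromRight ⟨z, hzR, not_le.mp h⟩
  · rw [abs_le, not_and_or] at h
    rcases h with h | h
    · push Not at h
      exact sub_Reg hlowC hlowK (x := z) (by show z.im < 0; linarith) hzR
    · push Not at h
      have h1 := sub_Reg (convex_halfSpace_im_gt R).isPreconnected htop h hzR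
      exact fromRight ⟨⟨R + 1, R + 1⟩, h1 (by show R < R + 1; linarith), by
        show R < R + 1; linarith⟩

/-- the standing data of a region -/
structure Base' (a b : ℝ) (F : ℝ → ℂ) (w : ℂ) : Prop where
  P : Path' a b F
  wK : w ∉ Ks a b F
  wi : 0 < w.im
  bd : ∃ R > 0, ∀ z ∈ Reg a b F w, |z.re| ≤ R ∧ |z.im| ≤ R

variable {w : ℂ}

/-- a half plane off the curve does not meet the region -/
theorem Base'.no_half (B : Base' a b F w) {c d e : ℝ} (hcd : c ≠ 0 ∨ d ≠ 0)
    (hK : ∀ z : ℂ, e < c * z.re + d * z.im → z ∉ Ks a b F) :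
    ∀ z ∈ Reg a b F w, c * z.re + d * z.im ≤ e := by
  intro z hz
  by_contra hcon
  push Not at hcon
  have hconv : Convex ℝ {z : ℂ | e < c * z.re + d * z.im} := by
    intro x hx y hy α β hα hβ hαβ
    have hx' : e < c * x.re + d * x.im := hx
    have hy' : e < c * y.re + d * y.im := hy
    show e < c * (α • x + β • y).re + d * (α • x + β • y).im
    simp only [Complex.add_re, Complex.smul_re, Complex.add_im, Complex.smul_im, smul_eq_mul]
    rcases hα.eq_or_lt with h | h
    · have hβ1 : β = 1 := by linarith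
      rw [← h, hβ1]
      linarith
    · have e1 := mul_lt_mul_of_pos_left hx' h
      have e2 := mul_le_mul_of_nonneg_left hy'.le hβ
      have e3 : α * e + β * e = e := by rw [← add_mul, hαβ, one_mul]
      have e4 : c * (α * x.re + β * y.re) + d * (α * x.im + β * y.im)
          = α * (c * x.re + d * x.im) + β * (c * y.re + d * y.im) := by ring
      rw [e4]
      linarith
  have hsub := sub_Reg hconv.isPreconnected (fun x hx => hK x hx) hcon hz
  obtain ⟨R, hR, hbd⟩ := B.bd
  set k : ℝ := (|z.re| + |z.im| + R + 1) / (c ^ 2 + d ^ 2) with hk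
  have hcd2 : 0 < c ^ 2 + d ^ 2 := by
    rcases hcd with h | h <;> positivity
  have hk0 : 0 < k := by
    have := abs_nonneg z.re
    have := abs_nonneg z.im
    positivity
  -- go far in the direction `(c, d)`
  set N : ℝ := (2 * R + 1 + |z.re| + |z.im|) * (1 + 1 / |c| + 1 / |d|) with hN
  have key : ∀ N : ℝ, 0 ≤ N → (⟨z.re + N * c, z.im + N * d⟩ : ℂ) ∈ Reg a b F w := by
    intro N hN
    apply hsub
    show e < c * (z.re + N * c) + d * (z.im + N * d)
    have : 0 ≤ N * (c ^ 2 + d ^ 2) := by positivity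
    nlinarith
  rcases hcd with h | h
  · have hc : 0 < |c| := abs_pos.mpr h
    have h1 := (hbd _ (key ((2 * R + 1 + |z.re|) / |c|) (by positivity))).1
    have h2 : |z.re + (2 * R + 1 + |z.re|) / |c| * c| ≥ |(2 * R + 1 + |z.re|) / |c| * c| - |z.re| := by
      have := abs_sub_abs_le_abs_sub ((2 * R + 1 + |z.re|) / |c| * c) (-z.re)
      rw [abs_neg, sub_neg_eq_add, add_comm ((2 * R + 1 + |z.re|) / |c| * c)] at this
      linarith
    have h3 : |(2 * R + 1 + |z.re|) / |c| * c| = 2 * R + 1 + |z.re| := by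
      rw [abs_mul, abs_of_nonneg (by positivity)]
      field_simp
    have h1' : |z.re + (2 * R + 1 + |z.re|) / |c| * c| ≤ R := h1
    linarith
  · have hc : 0 < |d| := abs_pos.mpr h
    have h1 := (hbd _ (key ((2 * R + 1 + |z.im|) / |d|) (by positivity))).2
    have h2 : |z.im + (2 * R + 1 + |z.im|) / |d| * d| ≥ |(2 * R + 1 + |z.im|) / |d| * d| - |z.im| := by
      have := abs_sub_abs_le_abs_sub ((2 * R + 1 + |z.im|) / |d| * d) (-z.im)
      rw [abs_neg, sub_neg_eq_add, add_comm ((2 * R + 1 + |z.im|) / |d| * d)] at this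
      linarith
    have h3 : |(2 * R + 1 + |z.im|) / |d| * d| = 2 * R + 1 + |z.im| := by
      rw [abs_mul, abs_of_nonneg (by positivity)]
      field_simp
    have h1' : |z.im + (2 * R + 1 + |z.im|) / |d| * d| ≤ R := h1
    linarith

/-- strict form -/
theorem Base'.no_half' (B : Base' a b F w) {c d e : ℝ} (hcd : c ≠ 0 ∨ d ≠ 0)
    (hK : ∀ z : ℂ, e < c * z.re + d * z.im → z ∉ Ks a b F) :
    ∀ z ∈ Reg a b F w, c * z.re + d * z.im < e := by
  intro z hz
  have h1 := B.no_half hcd hK
  rcases (h1 z hz).eq_or_lt with h | h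
  · exfalso
    obtain ⟨ε, hε, hball⟩ := Metric.isOpen_iff.mp (isOpen_Reg B.P w) z hz
    have hcd2 : 0 < |c| + |d| := by
      rcases hcd with h | h <;> positivity
    set k : ℝ := ε / (2 * (|c| + |d|)) with hk
    have hk0 : 0 < k := by positivity
    have hz' : (⟨z.re + k * c, z.im + k * d⟩ : ℂ) ∈ Reg a b F w := by
      apply hball
      rw [Metric.mem_ball, dist_eq_norm]
      have e1 : (⟨z.re + k * c, z.im + k * d⟩ : ℂ) - z = ⟨k * c, k * d⟩ := by
        apply Complex.ext <;> simp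
      rw [e1]
      refine (Complex.norm_le_abs_re_add_abs_im _).trans_lt ?_
      show |k * c| + |k * d| < ε
      rw [abs_mul, abs_mul, abs_of_pos hk0]
      have : k * |c| + k * |d| = ε / 2 := by
        rw [hk]; field_simp
      linarith
    have h2 := h1 _ hz'
    have h3 : c * (z.re + k * c) + d * (z.im + k * d) ≤ e := h2
    have h4 : 0 < k * (c ^ 2 + d ^ 2) := by
      have : 0 < c ^ 2 + d ^ 2 := by rcases hcd with h | h <;> positivity
      positivity
    nlinarith
  · exact h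

theorem Base'.im_pos (B : Base' a b F w) : ∀ z ∈ Reg a b F w, 0 < z.im := by
  intro z hz
  have := B.no_half' (c := 0) (d := -1) (e := 0) (Or.inr (by norm_num)) (by
    intro x hx hxK
    have := B.P.im_nonneg hxK
    linarith) z hz
  linarith

theorem Base'.uu_lt (B : Base' a b F w) (hu : ∀ s ∈ Ioo a b, uu (F s) ≤ b) :
    ∀ z ∈ Reg a b F w, uu z < b := by
  intro z hz
  have := B.no_half' (c := 1) (d := 1) (e := b) (Or.inl one_ne_zero) (by
    rintro x hx (⟨t, ht, rfl⟩ | ⟨h1, h2, h3⟩)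
    · rcases ht.1.eq_or_lt with h | h
      · rw [← h, B.P.ha] at hx
        simp only [Complex.ofReal_re, Complex.ofReal_im] at hx
        linarith [B.P.hab]
      · rcases ht.2.eq_or_lt with h' | h'
        · rw [h', B.P.hb] at hx
          simp only [Complex.ofReal_re, Complex.ofReal_im] at hx
          linarith
        · have := hu t ⟨h, h'⟩
          unfold uu at this
          linarith
    · rw [h3] at hx
      linarith) z hz
  unfold uu
  linarith

theorem Base'.tt_gt (B : Base' a b F w) (hu : ∀ s ∈ Ioo a b, a ≤ tt (F s)) :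
    ∀ z ∈ Reg a b F w, a < tt z := by
  intro z hz
  have := B.no_half' (c := -1) (d := 1) (e := -a) (Or.inl (by norm_num)) (by
    rintro x hx (⟨t, ht, rfl⟩ | ⟨h1, h2, h3⟩)
    · rcases ht.1.eq_or_lt with h | h
      · rw [← h, B.P.ha] at hx
        simp only [Complex.ofReal_re, Complex.ofReal_im] at hx
        linarith
      · rcases ht.2.eq_or_lt with h' | h'
        · rw [h', B.P.hb] at hx
          simp only [Complex.ofReal_re, Complex.ofReal_im] at hx
          linarith [B.P.hab]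
        · have := hu t ⟨h, h'⟩
          unfold tt at this
          linarith
    · rw [h3] at hx
      linarith) z hz
  unfold tt
  linarith

/-- two disjoint paths have nested regions -/
theorem nested {F3 F4 : ℝ → ℂ} (B3 : Base' a b F3 w) (B4 : Base' a b F4 w)
    (hdis : ∀ s ∈ Ioo a b, ∀ s' ∈ Ioo a b, F3 s ≠ F4 s') :
    Reg a b F3 w ⊆ Reg a b F4 w ∨ Reg a b F4 w ⊆ Reg a b F3 w := by
  have hab := B3.P.hab
  -- an auxiliary statement
  have aux : ∀ {F3 F4 : ℝ → ℂ}, Base' a b F3 w → Base' a b F4 w →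
      (∀ s ∈ Ioo a b, ∀ s' ∈ Ioo a b, F3 s ≠ F4 s') → ¬ (Reg a b F3 w ⊆ Reg a b F4 w) →
      ∀ s ∈ Ioo a b, F4 s ∈ Reg a b F3 w := by
    intro F3 F4 B3 B4 hdis hns
    have h1 : ∃ z ∈ Reg a b F3 w, z ∈ Ks a b F4 := by
      by_contra hcon
      push Not at hcon
      exact hns (sub_Reg (pre_Reg w) hcon (mem_Reg B3.wK) (mem_Reg B4.wK))
    obtain ⟨z, hz, hzK⟩ := h1
    have h2 : ∃ s ∈ Ioo a b, F4 s = z := by
      rcases hzK with ⟨t, ht, rfl⟩ | h
      · rcases ht.1.eq_or_lt with h | h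
        · exfalso
          apply Reg_sub w hz
          right
          rw [← h, B4.P.ha]
          exact ⟨by simp, by simp [hab.le], by simp⟩
        · rcases ht.2.eq_or_lt with h' | h'
          · exfalso
            apply Reg_sub w hz
            right
            rw [h', B4.P.hb]
            exact ⟨by simp [hab.le], by simp, by simp⟩
          · exact ⟨t, ⟨h, h'⟩, rfl⟩
      · exact absurd (Or.inr h) (Reg_sub w hz)
    obtain ⟨s, hs, hsz⟩ := h2
    have h3 : IsPreconnected (F4 '' Ioo a b) := isPreconnected_Ioo.image _ B4.P.hF.continuousOn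
    have h4 : ∀ x ∈ F4 '' Ioo a b, x ∉ Ks a b F3 := by
      rintro _ ⟨s', hs', rfl⟩ (⟨t, ht, h⟩ | h)
      · rcases ht.1.eq_or_lt with h5 | h5
        · rw [← h5, B3.P.ha] at h
          apply B4.P.hseg s' hs'
          rw [← h]
          exact ⟨by simp, by simp [hab.le], by simp⟩
        · rcases ht.2.eq_or_lt with h6 | h6
          · rw [h6, B3.P.hb] at h
            apply B4.P.hseg s' hs'
            rw [← h]
            exact ⟨by simp [hab.le], by simp, by simp⟩
          · exact hdis t ⟨h5, h6⟩ s' hs' h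
      · exact B4.P.hseg s' hs' h
    have h5 := sub_Reg h3 h4 (x := z) ⟨s, hs, hsz⟩ hz
    intro s' hs'
    exact h5 ⟨s', hs', rfl⟩
  by_contra hcon
  push Not at hcon
  have h4 := aux B3 B4 hdis hcon.1
  have h3 := aux B4 B3 (fun s hs s' hs' h => hdis s' hs' s hs h.symm) hcon.2
  -- the highest point
  have top : ∀ {F3 F4 : ℝ → ℂ}, Base' a b F3 w → Base' a b F4 w →
      (∀ s ∈ Ioo a b, F4 s ∈ Reg a b F3 w) → (∀ s ∈ Ioo a b, F3 s ∈ Reg a b F4 w) →
      ∀ s0 ∈ Icc a b, (∀ s ∈ Icc a b, (F3 s).im ≤ (F4 s0).im) → False := by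
    intro F3 F4 B3 B4 h4 h3 s0 hs0 hmax
    set m : ℝ := (a + b) / 2 with hm
    have hmI : m ∈ Ioo a b := ⟨by rw [hm]; linarith, by rw [hm]; linarith⟩
    have h5 : 0 < (F3 m).im := B4.im_pos _ (h3 m hmI)
    have h6 := hmax m ⟨hmI.1.le, hmI.2.le⟩
    have hs0' : s0 ∈ Ioo a b := by
      constructor
      · rcases hs0.1.eq_or_lt with h | h
        · rw [← h, B4.P.ha] at h6
          simp only [Complex.ofReal_im] at h6
          linarith
        · exact h
      · rcases hs0.2.eq_or_lt with h | h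
        · rw [h, B4.P.hb] at h6
          simp only [Complex.ofReal_im] at h6
          linarith
        · exact h
    have h7 := B3.no_half' (c := 0) (d := 1) (e := (F4 s0).im) (Or.inr one_ne_zero) (by
      rintro x hx (⟨t, ht, rfl⟩ | ⟨_, _, h⟩)
      · have := hmax t ht
        linarith
      · rw [h] at hx
        linarith) _ (h4 s0 hs0')
    linarith
  obtain ⟨s3, hs3, hm3⟩ := (isCompact_Icc (a := a) (b := b)).exists_isMaxOn
    (nonempty_Icc.mpr hab.le) (Complex.continuous_im.comp B3.P.hF).continuousOn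
  obtain ⟨s4, hs4, hm4⟩ := (isCompact_Icc (a := a) (b := b)).exists_isMaxOn
    (nonempty_Icc.mpr hab.le) (Complex.continuous_im.comp B4.P.hF).continuousOn
  rcases le_total (F3 s3).im (F4 s4).im with h | h
  · exact top B3 B4 h4 h3 s4 hs4 (fun s hs => (hm3 hs).trans h)
  · exact top B4 B3 h3 h4 s3 hs3 (fun s hs => (hm4 hs).trans h)

end Pool.Agent.SideTrap
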