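import Pool.Agent.Lib.MP_2fd4e2_co.Side.Abstract
import Pool.Agent.Lib.InvDomain.Open

/-!
Injective Lipschitz maps of the plane: homeomorphisms, null sets, determinants.
-/

set_option autoImplicit false

namespace Pool.Agent.SideTrap

open Complex Set Filter Topology MeasureTheory Pool.Agent.ArcTrap
open scoped ENNReal NNReal

/-- Invariance of domain in the complex plane. -/
theorem isOpenMap_of_injective {V : ℂ → ℂ} (hV : Continuous V) (hi : Function.Injective V) :
    IsOpenMap V := by
  intro U hU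
  let e : ℂ ≃ₗᵢ[ℝ] EuclideanSpace ℝ (Fin 2) := Complex.orthonormalBasisOneI.repr
  have h1 : IsOpen ((fun x => e (V (e.symm x))) '' (e '' U)) := by
    apply Pool.Agent.Lib.InvDomain.isOpen_image (by norm_num)
    · exact e.toHomeomorph.isOpenMap U hU
    · exact (e.continuous.comp (hV.comp e.symm.continuous)).continuousOn
    · intro x _ y _ h
      exact e.symm.injective (hi (e.injective h))
  have h2 : V '' U = e ⁻¹' ((fun x => e (V (e.symm x))) '' (e '' U)) := by
    ext z
    constructor
    · rintro ⟨w, hw, rfl⟩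
      exact ⟨e w, ⟨w, hw, rfl⟩, by simp⟩
    · rintro ⟨_, ⟨w, hw, rfl⟩, h⟩
      simp only [LinearIsometryEquiv.symm_apply_apply] at h
      exact ⟨w, hw, e.injective h⟩
  rw [h2]
  exact h1.preimage e.continuous

theorem exists_homeo_of_lower {V : ℂ → ℂ} (hV : Continuous V) {δ : ℝ} (hδ : 0 < δ)
    (hlow : ∀ x y, δ * ‖x - y‖ ≤ ‖V x - V y‖) : ∃ e : ℂ ≃ₜ ℂ, ∀ x, e x = V x := by
  have hi : Function.Injective V := by
    intro x y h
    have := hlow x y
    rw [h, sub_self, norm_zero] at this
    have h2 : ‖x - y‖ ≤ 0 := by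
      by_contra hcon
      push Not at hcon
      have := mul_pos hδ hcon
      linarith
    have h3 : ‖x - y‖ = 0 := le_antisymm h2 (norm_nonneg _)
    exact sub_eq_zero.mp (norm_eq_zero.mp h3)
  have hop := isOpenMap_of_injective hV hi
  have hcl : IsClosed (range V) := by
    rw [← isSeqClosed_iff_isClosed]
    intro u z hu hz
    choose x hx using hu
    have hc : CauchySeq x := by
      have h1 : CauchySeq u := hz.cauchySeq
      rw [Metric.cauchySeq_iff] at h1 ⊢
      intro ε hε
      obtain ⟨N, hN⟩ := h1 (δ * ε) (by positivity)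
      refine ⟨N, fun m hm n hn => ?_⟩
      have h2 := hN m hm n hn
      have h3 := hlow (x m) (x n)
      rw [hx m, hx n, ← dist_eq_norm, ← dist_eq_norm] at h3
      have h4 : δ * dist (x m) (x n) < δ * ε := h3.trans_lt h2
      exact lt_of_mul_lt_mul_left h4 hδ.le
    obtain ⟨y, hy⟩ := cauchySeq_tendsto_of_complete hc
    refine ⟨y, ?_⟩
    have h5 : Tendsto (fun n => V (x n)) atTop (𝓝 (V y)) := (hV.tendsto y).comp hy
    have h6 : (fun n => V (x n)) = u := funext hx
    rw [h6] at h5
    exact tendsto_nhds_unique h5 hz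
  have hsurj : Function.Surjective V := by
    rw [← range_eq_univ]
    exact IsClopen.eq_univ ⟨hcl, hop.isOpen_range⟩ (range_nonempty V)
  exact ⟨(Equiv.ofBijective V ⟨hi, hsurj⟩).toHomeomorphOfContinuousOpen hV hop, fun x => rfl⟩

theorem null_image {F : ℂ → ℂ} {K : ℝ≥0} (hF : LipschitzWith K F) {N : Set ℂ}
    (hN : volume N = 0) : volume (F '' N) = 0 := by
  have h1 : (Measure.hausdorffMeasure (Module.finrank ℝ ℂ : ℝ) : Measure ℂ) ≪ volume :=
    Measure.absolutelyContinuous_isAddHaarMeasure _ _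
  have h2 : (volume : Measure ℂ) ≪ Measure.hausdorffMeasure (Module.finrank ℝ ℂ : ℝ) :=
    Measure.absolutelyContinuous_isAddHaarMeasure _ _
  apply h2
  have h3 := hF.hausdorffMeasure_image_le (d := (Module.finrank ℝ ℂ : ℝ)) (by positivity) N
  rw [h1 hN, mul_zero] at h3
  exact le_antisymm h3 bot_le

/-- the determinant of a real linear map of the plane -/
theorem det_eq (L : ℂ →L[ℝ] ℂ) :
    L.det = ((starRingEnd ℂ) (L 1) * L I).im := by
  show LinearMap.det (L : ℂ →ₗ[ℝ] ℂ) = _
  rw [← LinearMap.det_toMatrix Complex.basisOneI, Matrix.det_fin_two]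
  simp only [LinearMap.toMatrix_apply, Complex.coe_basisOneI, Complex.coe_basisOneI_repr]
  simp [Complex.mul_im]
  ring

theorem det_eq' (L : ℂ →L[ℝ] ℂ) :
    L.det = 2 * ((starRingEnd ℂ) (L ⟨1 / 2, -1 / 2⟩) * L ⟨1 / 2, 1 / 2⟩).im := by
  have e1 : (1 : ℂ) = (⟨1 / 2, -1 / 2⟩ : ℂ) + ⟨1 / 2, 1 / 2⟩ := by
    apply Complex.ext <;> norm_num
  have e2 : (I : ℂ) = (⟨1 / 2, 1 / 2⟩ : ℂ) - ⟨1 / 2, -1 / 2⟩ := by
    apply Complex.ext <;> norm_num
  rw [det_eq]
  conv_lhs => rw [e1]
  rw [e2, map_add, map_sub, map_add]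
  set x := L ⟨1 / 2, -1 / 2⟩
  set y := L ⟨1 / 2, 1 / 2⟩
  simp only [Complex.mul_im, Complex.add_re, Complex.add_im, Complex.sub_re, Complex.sub_im,
    Complex.conj_re, Complex.conj_im]
  ring

/-- two injective Lipschitz maps whose derivatives have the same determinants have the same areas -/
theorem vol_eq {V W : ℂ → ℂ} {K K' : ℝ≥0} (hV : LipschitzWith K V) (hW : LipschitzWith K' W)
    (iV : Function.Injective V) (iW : Function.Injective W)
    (hdet : ∀ x, DifferentiableAt ℝ V x → DifferentiableAt ℝ W x →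
      (fderiv ℝ V x).det = (fderiv ℝ W x).det) (S : Set ℂ) (hS : IsOpen S) :
    volume (V '' S) = volume (W '' S) := by
  set T : Set ℂ := {x | DifferentiableAt ℝ V x} ∩ {x | DifferentiableAt ℝ W x} with hT
  have mT : MeasurableSet T := (measurableSet_of_differentiableAt ℝ V).inter
    (measurableSet_of_differentiableAt ℝ W)
  have hTn : volume Tᶜ = 0 := by
    have h1 : ∀ᵐ x ∂(volume : Measure ℂ), x ∈ T := by
      filter_upwards [hV.ae_differentiableAt (μ := (volume : Measure ℂ)),
        hW.ae_differentiableAt (μ := (volume : Measure ℂ))] with x h1 h2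
      exact ⟨h1, h2⟩
    exact h1
  have key : ∀ {V : ℂ → ℂ} {K : ℝ≥0}, LipschitzWith K V → volume (V '' S) = volume (V '' (S ∩ T)) := by
    intro V K hV
    apply le_antisymm
    · have h1 : V '' S ⊆ V '' (S ∩ T) ∪ V '' Tᶜ := by
        rintro _ ⟨x, hx, rfl⟩
        by_cases h : x ∈ T
        · left; exact ⟨x, ⟨hx, h⟩, rfl⟩
        · right; exact ⟨x, h, rfl⟩
      refine (measure_mono h1).trans ((measure_union_le _ _).trans ?_)
      rw [null_image hV hTn, add_zero]
    · exact measure_mono (image_mono inter_subset_left)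
  rw [key hV, key hW]
  have mST : MeasurableSet (S ∩ T) := hS.measurableSet.inter mT
  rw [← lintegral_abs_det_fderiv_eq_addHaar_image volume mST
      (fun x hx => (hx.2.1.hasFDerivAt).hasFDerivWithinAt) iV.injOn,
    ← lintegral_abs_det_fderiv_eq_addHaar_image volume mST
      (fun x hx => (hx.2.2.hasFDerivAt).hasFDerivWithinAt) iW.injOn]
  apply setLIntegral_congr_fun mST
  intro x hx
  simp only
  rw [hdet x hx.2.1 hx.2.2]

end Pool.Agent.SideTrap
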